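import Pool.Agent.Helper61.RigidL.CoreL

/-!
The local core theorem in the form used for the strictness on the graph (helper61).
-/

namespace Pool.Agent.Helper61.RigidL

open Pool.Agent.Helper61.Rigid

variable {p : ℕ} {sig tau : ℕ → ℕ}

/-- The local core theorem: a certificate whose kept spokes are low and whose end spokes do not
separate the rim edges in `Z`. -/
theorem coreLP (H : HypL p sig tau) (hE0 : sig (p - 1) ≠ sig 1 + 1) :
    ∃ (zA zB X : ℕ → Prop) (cA cB : ℕ → ℕ) (s t : Bool × ℕ), Cert p sig zA zB X cA cB s t ∧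
      (∀ a, 1 ≤ a → a ≤ p → X a → a = s.2 ∨ a = t.2 ∨ a = p ∨ sig a ≤ sig 1 + 1) ∧
      (∀ c, (c = s.2 ∨ c = t.2) → ∀ PA PB : ℕ → Prop,
        (∀ a, 1 ≤ a → a ≤ p → zA a → (PA a ↔ PA (nx p a))) →
        (∀ b, 1 ≤ b → b ≤ p → zB b → (PB b ↔ PB (nx p b))) →
        (∀ a, 1 ≤ a → a ≤ p → X a → a ≠ c → (PA a ↔ PB (sig a))) →
        ((∀ a, 1 ≤ a → a ≤ p → zA a → PA a) ∧ (∀ b, 1 ≤ b → b ≤ p → zB b → PB b)) ∨
        ((∀ a, 1 ≤ a → a ≤ p → zA a → ¬ PA a) ∧ (∀ b, 1 ≤ b → b ≤ p → zB b → ¬ PB b))) := by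
  obtain ⟨zA, zB, X, cA, cB, s, t, C⟩ := coreL H hE0
  refine ⟨zA, zB, X, cA, cB, s, t, C.cert, C.low, ?_⟩
  intro c hc PA PB h1 h2 h3
  obtain ⟨v, h4, h5⟩ := C.ends c hc (fun o a => match o with
    | true => PA a
    | false => PB (sig a)) h1
    (by
      intro a a' ha hap _ _ hz hs
      have h6 := H.sig_mem a ha hap
      have h7 := h2 (sig a) h6.1 h6.2 hz
      rw [← hs] at h7
      exact h7) h3
  have h6 : ∀ b, 1 ≤ b → b ≤ p → zB b → (PB b ↔ v) := by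
    intro b hb hbp hz
    have h7 := H.tau_mem b hb hbp
    have h8 := H.sig_tau b hb hbp
    have h9 := h5 (tau b) h7.1 h7.2 (by rw [h8]; exact hz)
    simp only [h8] at h9
    exact h9
  by_cases hv : v
  · left
    exact ⟨fun a ha hap hz => (h4 a ha hap hz).2 hv, fun b hb hbp hz => (h6 b hb hbp hz).2 hv⟩
  · right
    exact ⟨fun a ha hap hz h => hv ((h4 a ha hap hz).1 h),
      fun b hb hbp hz h => hv ((h6 b hb hbp hz).1 h)⟩

end Pool.Agent.Helper61.RigidL
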