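import Pool.Agent.Helper61.RigidL.Ends

/-!
The certificate W: the path `x0 + 1, x0, 1, p, n0, n0 - 1` (helper61).
-/

namespace Pool.Agent.Helper61.RigidL

open Pool.Agent.Helper61.Rigid

variable {p : ℕ} {sig tau : ℕ → ℕ}

/-- The rim edges of the first rim. -/
def wzA (p x0 n0 : ℕ) (a : ℕ) : Prop := a = x0 ∨ a = n0 - 1 ∨ a = p

/-- The rim edges of the second rim. -/
def wzB (p : ℕ) (sig : ℕ → ℕ) (b : ℕ) : Prop := b = sig 1 ∨ b = p

/-- The kept spokes. -/
def wX (p x0 n0 : ℕ) (a : ℕ) : Prop :=
  a = p ∨ a = 1 ∨ a = x0 ∨ a = x0 + 1 ∨ a = n0 ∨ a = n0 - 1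

theorem cert_W (H : HypL p sig tau) (x0 n0 : ℕ) (hx1 : 1 < x0) (hxe : x0 % 2 = 0)
    (hsx : sig x0 = sig 1 + 1) (htp : x0 + 1 < p) (hte : sig (x0 + 1) % 2 = 0)
    (htl : sig (x0 + 1) < sig 1) (hno : n0 % 2 = 1) (hn3 : 3 ≤ n0) (hnx : n0 < x0)
    (hsn : sig n0 = 1) (hle : sig (n0 - 1) % 2 = 0) (hlm : sig 1 < sig (n0 - 1)) :
    ∃ (zA zB X : ℕ → Prop) (cA cB : ℕ → ℕ) (s t : Bool × ℕ), CertL p sig zA zB X cA cB s t := by
  have hp := H.hp
  have ho := H.podd
  have hme := H.m_even
  obtain ⟨hm2, hmp⟩ := H.m_lt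
  have hsp := H.sig_p
  have hs1 := H.sig_mem (x0 + 1) (by omega) (by omega)
  have hs2 := H.sig_mem (n0 - 1) (by omega) (by omega)
  have C : Cert p sig (wzA p x0 n0) (wzB p sig) (wX p x0 n0)
      (fun a => a + (if n0 ≤ a ∧ a ≤ x0 then 1 else 0))
      (fun b => b + (if sig 1 < b then 1 else 0)) (false, x0 + 1) (false, n0 - 1) := by
    constructor
    · -- colA
      intro a ha hap hz
      have h1 : a ≠ p := fun h => hz (Or.inr (Or.inr h))
      have h2 : a ≠ n0 - 1 := fun h => hz (Or.inr (Or.inl h))
      have h3 : a ≠ x0 := fun h => hz (Or.inl h)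
      rw [nx_ne h1]
      split_ifs <;> omega
    · -- colB
      intro b hb hbp hz
      have h1 : b ≠ p := fun h => hz (Or.inr h)
      have h2 : b ≠ sig 1 := fun h => hz (Or.inl h)
      rw [nx_ne h1]
      split_ifs <;> omega
    · -- colX
      intro a ha hap hX
      rcases hX with h1 | h1 | h1 | h1 | h1 | h1
      · rw [h1, hsp]
        split_ifs <;> omega
      · subst h1
        split_ifs <;> omega
      · rw [h1, hsx]
        split_ifs <;> omega
      · rw [h1]
        split_ifs <;> omega
      · rw [h1, hsn]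
        split_ifs <;> omega
      · rw [h1]
        split_ifs <;> omega
    · -- oneA
      rintro a ha hap ⟨h1, h2⟩
      unfold wzA at h1 h2
      unfold pv at h1
      split_ifs at h1 <;> omega
    · -- oneB
      rintro b hb hbp ⟨h1, h2⟩
      unfold wzB at h1 h2
      unfold pv at h1
      split_ifs at h1 <;> omega
    · -- notX
      intro a ha hap hX
      have hsa := H.sig_mem a ha hap
      have k1 : a ≠ p := fun h => hX (Or.inl h)
      have k2 : a ≠ 1 := fun h => hX (Or.inr (Or.inl h))
      have k3 : a ≠ x0 := fun h => hX (Or.inr (Or.inr (Or.inl h)))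
      have k4 : a ≠ x0 + 1 := fun h => hX (Or.inr (Or.inr (Or.inr (Or.inl h))))
      have k5 : a ≠ n0 := fun h => hX (Or.inr (Or.inr (Or.inr (Or.inr (Or.inl h)))))
      have k6 : a ≠ n0 - 1 := fun h => hX (Or.inr (Or.inr (Or.inr (Or.inr (Or.inr h)))))
      have q1 : sig a ≠ p := fun h => k1 (H.sig_inj ha hap (by omega) le_rfl (h.trans hsp.symm))
      have q2 : sig a ≠ sig 1 := fun h => k2 (H.sig_inj ha hap (by omega) (by omega) h)
      have q3 : sig a ≠ sig 1 + 1 := fun h =>
        k3 (H.sig_inj ha hap (by omega) (by omega) (h.trans hsx.symm))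
      have q5 : sig a ≠ 1 := fun h =>
        k5 (H.sig_inj ha hap (by omega) (by omega) (h.trans hsn.symm))
      refine ⟨?_, ?_, ?_, ?_⟩
      · unfold wzA; omega
      · unfold wzA pv
        split_ifs <;> omega
      · unfold wzB; omega
      · unfold wzB pv
        split_ifs <;> omega
    · -- covA
      intro a ha hap hX
      constructor
      · intro _
        exact ⟨by simp, by simp⟩
      · intro _
        unfold wzA pv
        rcases hX with h1 | h1 | h1 | h1 | h1 | h1 <;> split_ifs <;> omega
    · -- covB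
      intro a ha hap hX
      have hsa := H.sig_mem a ha hap
      constructor
      · intro h1
        constructor
        · intro h2
          have h3 : a = x0 + 1 := congrArg Prod.snd h2
          rw [h3] at h1 hsa
          unfold wzB pv at h1
          split_ifs at h1 <;> omega
        · intro h2
          have h3 : a = n0 - 1 := congrArg Prod.snd h2
          rw [h3] at h1 hsa
          unfold wzB pv at h1
          split_ifs at h1 <;> omega
      · rintro ⟨h1, h2⟩
        have h1' : a ≠ x0 + 1 := fun h => h1 (by rw [h])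
        have h2' : a ≠ n0 - 1 := fun h => h2 (by rw [h])
        unfold wzB
        rcases hX with h3 | h3 | h3 | h3 | h3 | h3
        · right; right
          rw [h3, hsp]
        · right; left
          rw [h3]
        · left; left
          rw [h3, hsx, pv_eq (by omega)]
          omega
        · exact absurd h3 h1'
        · left; right
          rw [h3, hsn, pv_one]
        · exact absurd h3 h2'
    · -- st
      intro h
      have h3 : x0 + 1 = n0 - 1 := congrArg Prod.snd h
      omega
    · exact ⟨by show 1 ≤ x0 + 1; omega, by show x0 + 1 ≤ p; omega,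
        Or.inr (Or.inr (Or.inr (Or.inl rfl)))⟩
    · exact ⟨by show 1 ≤ n0 - 1; omega, by show n0 - 1 ≤ p; omega,
        Or.inr (Or.inr (Or.inr (Or.inr (Or.inr rfl))))⟩
  refine ⟨_, _, _, _, _, _, _, C, ?_, ?_⟩
  · intro a ha hap hX
    rcases hX with h3 | h3 | h3 | h3 | h3 | h3
    · exact Or.inr (Or.inr (Or.inl h3))
    · right; right; right
      rw [h3]; omega
    · right; right; right
      rw [h3]; omega
    · left; exact h3
    · right; right; right
      rw [h3]; omega
    · right; left; exact h3
  · intro c hc S hA hB hX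
    have hc' : c = x0 + 1 ∨ c = n0 - 1 := hc
    have e1 : S true x0 ↔ S true (x0 + 1) := by
      have h := hA x0 (by omega) (by omega) (Or.inl rfl)
      rwa [nx_ne (by omega)] at h
    have e2 : S true x0 ↔ S false x0 :=
      hX x0 (by omega) (by omega) (Or.inr (Or.inr (Or.inl rfl))) (by omega)
    have e3 : S false 1 ↔ S false x0 := by
      refine hB 1 x0 le_rfl (by omega) (by omega) (by omega) (Or.inl rfl) ?_
      rw [hsx, nx_ne (by omega)]
    have e4 : S true 1 ↔ S false 1 :=
      hX 1 (by omega) (by omega) (Or.inr (Or.inl rfl)) (by omega)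
    have e5 : S true p ↔ S true 1 := by
      have h := hA p (by omega) le_rfl (Or.inr (Or.inr rfl))
      rwa [nx_self] at h
    have e6 : S true p ↔ S false p := hX p (by omega) le_rfl (Or.inl rfl) (by omega)
    have e7 : S false p ↔ S false n0 := by
      refine hB p n0 (by omega) le_rfl (by omega) (by omega) (Or.inr hsp) ?_
      rw [hsn, hsp, nx_self]
    have e8 : S true n0 ↔ S false n0 :=
      hX n0 (by omega) (by omega) (Or.inr (Or.inr (Or.inr (Or.inr (Or.inl rfl))))) (by omega)
    have e9 : S true (n0 - 1) ↔ S true n0 := by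
      have h := hA (n0 - 1) (by omega) (by omega) (Or.inr (Or.inl rfl))
      rw [nx_ne (by omega)] at h
      have h' : n0 - 1 + 1 = n0 := by omega
      rwa [h'] at h
    refine ⟨S true x0, ?_, ?_⟩
    · rintro a ha hap (h3 | h3 | h3)
      · rw [h3]
      · rw [h3, e9, e8, ← e7, ← e6, e5, e4, e3, ← e2]
      · rw [h3, e5, e4, e3, ← e2]
    · rintro a ha hap (h3 | h3)
      · have h4 := H.sig_inj ha hap (by omega) (by omega) h3
        rw [h4, e3, ← e2]
      · have h4 := H.sig_inj ha hap (by omega) le_rfl (h3.trans hsp.symm)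
        rw [h4, ← e6, e5, e4, e3, ← e2]

end Pool.Agent.Helper61.RigidL
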