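import Pool.Agent.Helper61.RigidL.NCert

/-!
The local core theorem: every coordinate system with the local parity rules and
`sig (p - 1) ≠ sig 1 + 1` has a certificate (helper61).
-/

namespace Pool.Agent.Helper61.RigidL

open Pool.Agent.Helper61.Rigid

variable {p : ℕ} {sig tau : ℕ → ℕ} {i : ℕ} {t x : ℕ → ℕ}

theorem certL_I (H : HypL p sig tau) {K : ℕ} {n : ℕ → ℕ} {h : ℕ} {u : Bool × ℕ}
    (F : Fr p sig i t x K K n h (true, n K) u)
    (hI : (n K % 2 = 1 ∧ ¬ UL sig i t x (n K) (sig (n K))) ∨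
      (n K % 2 = 0 ∧ 1 ≤ K ∧ n K < n (K - 1) - 1))
    (hT : h = sig (t (i + 1)) → 1 ≤ K) :
    ∃ (zA zB X : ℕ → Prop) (cA cB : ℕ → ℕ) (s t : Bool × ℕ), CertL p sig zA zB X cA cB s t := by
  obtain ⟨cA, cB, C⟩ := cert_I H F hI hT
  exact ⟨_, _, _, _, _, _, _, C, fr_low H F, fr_ends H F⟩

theorem certL_II (H : HypL p sig tau) {K : ℕ} {n : ℕ → ℕ} {h : ℕ} {u : Bool × ℕ}
    (F : Fr p sig i t x K (K + 1) n h (false, n K - 1) u)
    (hodd : n K % 2 = 1) (hn3 : 3 ≤ n K) (hnp : n K < p) (hsl : sig (n K) < sig (n K - 1))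
    (hslev : sig (n K - 1) % 2 = 0)
    (hU : UL sig i t x (n K) (sig (n K))) (hinc : ∀ q < K, n q < n K)
    (hl : ¬ UL sig i t x (n K - 1) (sig (n K - 1)))
    (beta : ℕ) (hb : beta ≤ i) (hb1 : t beta ≤ n K) (hb2 : n K ≤ x beta)
    (hT : t (i + 1) = p → h = p → 1 ≤ beta) :
    ∃ (zA zB X : ℕ → Prop) (cA cB : ℕ → ℕ) (s t : Bool × ℕ), CertL p sig zA zB X cA cB s t := by
  obtain ⟨cA, cB, C⟩ := cert_II H F hodd hn3 hnp hsl hslev hU hinc hl beta hb hb1 hb2 hT
  exact ⟨_, _, _, _, _, _, _, C, fr_low H F, fr_ends H F⟩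

/-- The local core theorem. -/
theorem coreL (H : HypL p sig tau) (hE0 : sig (p - 1) ≠ sig 1 + 1) :
    ∃ (zA zB X : ℕ → Prop) (cA cB : ℕ → ℕ) (s t : Bool × ℕ), CertL p sig zA zB X cA cB s t := by
  have hp := H.hp
  have ho := H.podd
  have hme := H.m_even
  obtain ⟨hm2, hmp⟩ := H.m_lt
  obtain ⟨i, t, x, L, hUT⟩ := exists_LD H
  have hti := L.tpos (i + 1) le_rfl
  have hti' := H.sig_mem _ hti.1 hti.2
  have hts := L.ts i le_rfl
  have hxp := L.xp i le_rfl
  have hxt := L.tx i le_rfl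
  have htio := L.todd (i + 1) le_rfl
  have hst : ∀ j ≤ i, sig (t j) ≤ sig 1 := by
    intro j hj
    have := L.st_le (Nat.zero_le j) hj
    rw [L.t0] at this
    exact this
  -- the last point of the chain is below `m`
  have hlow2 : ∀ (K : ℕ) (n : ℕ → ℕ), CD p sig i t x K n → sig (n 0) < sig 1 →
      sig (n K) % 2 = 1 → sig (n K) < sig 1 := by
    intro K n C h ho'
    rcases Nat.eq_zero_or_pos K with h2 | h2
    · rw [h2]; exact h
    · have h3 := C.step (K - 1) (by omega)
      have h5 : K - 1 + 1 = K := by omega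
      rw [h5] at h3
      have h4 := cd_sl_lt H L C (q := K - 1) (by omega)
      omega
  have hnx : ∀ (K : ℕ) (n : ℕ → ℕ), CD p sig i t x K n → 1 ≤ n K → n K ≤ p →
      (n K % 2 = 1 ∨ 1 ≤ K) → ∀ j ≤ i, n K ≠ x j := by
    intro K n C h1 h2 h3 j hj h4
    rcases Nat.eq_zero_or_pos K with h5 | h5
    · have h6 := L.xev j hj
      omega
    · have h6 := C.step (K - 1) (by omega)
      have h7 : K - 1 + 1 = K := by omega
      rw [h7, h4, L.sx j hj] at h6
      have h8 : sig (t j) = sig (n (K - 1) - 1) := by omega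
      have h9 := L.tpos j (by omega)
      have h10 := C.n3 (K - 1) (by omega)
      have h11 := C.np (K - 1) (by omega)
      have h12 := C.nodd (K - 1) (by omega)
      have h13 := H.sig_inj h9.1 h9.2 (by omega) (by omega) h8
      have h14 := L.todd j (by omega)
      omega
  rcases hUT with ⟨hU1, hU2⟩ | ⟨hT1, hT2, hT3, hT4, hT5⟩
  · -- UE
    have htm := H.tau_mem 1 le_rfl (by omega)
    have hst1 := H.sig_tau 1 le_rfl (by omega)
    obtain ⟨n, hn0, hex⟩ := chain_exit H L (tau 1) htm.1 htm.2 H.n_odd (by rw [hst1])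
    have hn0' : sig (n 0) = nx p p := by
      rw [hn0, hst1, nx_self]
    have hn0'' : sig (n 0) < sig 1 := by
      rw [hn0, hst1]; omega
    obtain ⟨u, hu⟩ : ∃ u : Bool × ℕ, (t (i + 1) ≠ p ∧ u = (false, t (i + 1))) ∨
        (t (i + 1) = p ∧ u = (true, 1)) := by
      by_cases h : t (i + 1) = p
      · exact ⟨_, Or.inr ⟨h, rfl⟩⟩
      · exact ⟨_, Or.inl ⟨h, rfl⟩⟩
    rcases hex with ⟨K, C, hK1, hK2, hK3, hK4⟩ | ⟨k, C, hk1, hk2, hk3, hk4, hk5, hk6⟩
    · have F : Fr p sig i t x K K n p (true, n K) u :=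
        ⟨L, C, ⟨hK1, hK2, hK3, hlow2 K n C hn0'' hK3⟩,
          hnx K n C hK1 hK2 (by omega), hn0',
          Or.inl ⟨rfl, hU1, hU2, hu⟩, Or.inl ⟨rfl, rfl⟩⟩
      refine certL_I H F hK4 ?_
      intro h
      rw [← H.sig_p] at h
      have h1 := H.sig_inj (by omega) le_rfl hti.1 hti.2 h
      rw [← h1, H.sig_p] at hU1
      by_contra h2
      have h3 : K = 0 := by omega
      subst h3
      rcases hK4 with ⟨_, h4⟩ | ⟨_, h4, _⟩
      · apply h4
        refine ⟨i, le_rfl, ?_, ?_⟩
        · have h5 := hK2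
          have h6 : n 0 ≠ p := by
            intro h7
            rw [h7, H.sig_p] at hn0''
            omega
          have h7 := L.xev i le_rfl
          omega
        · have h5 := L.tpos i (by omega)
          have h6 := H.sig_mem _ h5.1 h5.2
          rw [hn0, hst1]
          exact h6.1
      · omega
    · obtain ⟨g1, g2, g3, g4, g5⟩ := good_point H L hk3 hk1 hk2 hk4
      have hkp : n k ≤ x i := by
        obtain ⟨j, hj, h1, _⟩ := hk4
        have := L.x_le hj le_rfl
        omega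
      have F : Fr p sig i t x k (k + 1) n p (false, n k - 1) u :=
        ⟨L, C, ⟨hk3, by omega, hk2, g3⟩,
          hnx k n C hk3 (by omega) (Or.inl hk1), hn0',
          Or.inl ⟨rfl, hU1, hU2, hu⟩, Or.inr ⟨rfl, rfl, hk1, g1, g2, g5, g4, hk5⟩⟩
      obtain ⟨beta, hb, hb1, hb2⟩ := L.exists_blk (n k) hk3 hkp
      by_cases hV : t (i + 1) = p ∧ beta = 0
      · obtain ⟨hE, hb0⟩ := hV
        subst hb0
        have hx0 := L.xp 0 (by omega)
        have ht0 := L.tx 0 (by omega)
        have hxe := L.xev 0 (by omega)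
        rw [L.t0] at ht0
        have hsx0 := L.sx 0 (by omega)
        rw [L.t0] at hsx0
        have hts0 := L.ts 0 (by omega)
        rw [Nat.zero_add] at hts0
        -- the staircase has at least two steps
        have hi1 : 1 ≤ i := by
          by_contra h
          have h0 : i = 0 := by omega
          subst h0
          rw [Nat.zero_add] at hE
          apply hE0
          have h1 : p - 1 = x 0 := by omega
          rw [h1]; exact hsx0
        have hdec := L.dec 0 (by omega)
        have hse1 := L.sev 1 hi1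
        have htx1 := L.tx 1 hi1
        have hxp1 := L.xp 1 hi1
        have hsx1 := L.sx 1 hi1
        rw [Nat.zero_add, hts0, L.t0] at hdec
        rw [hts0] at hse1 htx1 hsx1
        have hlk : sig 1 < sig (n k - 1) := by
          by_contra h
          apply hk6
          refine ⟨0, by omega, by omega, ?_⟩
          rw [L.t0]
          omega
        have hsn0 : sig (n 0) = 1 := by rw [hn0, hst1]
        have hnx0 : n k ≠ x 0 := by
          intro h
          rw [h] at g3
          omega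
        rcases Nat.eq_zero_or_pos k with hk0 | hk0
        · subst hk0
          exact cert_W H (x 0) (n 0) ht0 hxe hsx0 (by omega) hse1 hdec hk1 g1 (by omega) hsn0 g5 hlk
        · have h1 := hk5 0 hk0
          have h2 := C.nodd 0 hk0
          have h3 := C.n3 0 hk0
          exact cert_N H (x 0) (n 0) (x 1) ht0 hxe hsx0 (by omega) hse1 hdec h2 h3 (by omega) hsn0
            (by omega) hxp1 hsx1
      · refine certL_II H F hk1 g1 g2 g4 g5 hk4 hk5 hk6 beta hb hb1 hb2 ?_
        intro h1 _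
        by_contra h2
        exact hV ⟨h1, by omega⟩
  · -- T
    have hbm := H.tau_mem (sig (t (i + 1)) + 1) (by omega) (by
      have := hst i le_rfl
      omega)
    have hbs := H.sig_tau (sig (t (i + 1)) + 1) (by omega) (by
      have := hst i le_rfl
      omega)
    have hsti := hst i le_rfl
    obtain ⟨n, hn0, hex⟩ := chain_exit H L (tau (sig (t (i + 1)) + 1)) hbm.1 hbm.2 hT5
      (by rw [hbs]; omega)
    have hn0' : sig (n 0) = nx p (sig (t (i + 1))) := by
      rw [hn0, hbs, nx_ne (by omega)]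
    have hn0'' : sig (n 0) < sig 1 := by
      rw [hn0, hbs]
      have := L.sev i le_rfl
      omega
    have hUn0 : UL sig i t x (n 0) (sig (n 0)) := by
      refine ⟨i, le_rfl, ?_, ?_⟩
      · rw [hn0]; omega
      · rw [hn0, hbs]; omega
    rcases hex with ⟨K, C, hK1, hK2, hK3, hK4⟩ | ⟨k, C, hk1, hk2, hk3, hk4, hk5, hk6⟩
    · have F : Fr p sig i t x K K n (sig (t (i + 1))) (true, n K) (false, p) :=
        ⟨L, C, ⟨hK1, hK2, hK3, hlow2 K n C hn0'' hK3⟩,
          hnx K n C hK1 hK2 (by omega), hn0',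
          Or.inr ⟨rfl, hT1, hT2, hT3, rfl⟩, Or.inl ⟨rfl, rfl⟩⟩
      refine certL_I H F hK4 ?_
      intro _
      by_contra h2
      have h3 : K = 0 := by omega
      subst h3
      rcases hK4 with ⟨_, h4⟩ | ⟨_, h4, _⟩
      · exact h4 hUn0
      · omega
    · obtain ⟨g1, g2, g3, g4, g5⟩ := good_point H L hk3 hk1 hk2 hk4
      have hkp : n k ≤ x i := by
        obtain ⟨j, hj, h1, _⟩ := hk4
        have := L.x_le hj le_rfl
        omega
      have F : Fr p sig i t x k (k + 1) n (sig (t (i + 1))) (false, n k - 1) (false, p) :=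
        ⟨L, C, ⟨hk3, by omega, hk2, g3⟩,
          hnx k n C hk3 (by omega) (Or.inl hk1), hn0',
          Or.inr ⟨rfl, hT1, hT2, hT3, rfl⟩, Or.inr ⟨rfl, rfl, hk1, g1, g2, g5, g4, hk5⟩⟩
      obtain ⟨beta, hb, hb1, hb2⟩ := L.exists_blk (n k) hk3 hkp
      refine certL_II H F hk1 g1 g2 g4 g5 hk4 hk5 hk6 beta hb hb1 hb2 ?_
      intro h1 _
      omega

end Pool.Agent.Helper61.RigidL
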