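import Pool.Agent.Helper61.Rigid.Core

/-!
The local version of the core theorem on rigid permutations (helper61): the parity rules are only
assumed near the rows up to `sig 1 + 1`.
-/

namespace Pool.Agent.Helper61.RigidL

open Pool.Agent.Helper61.Rigid

/-- The local hypotheses on the coordinates. -/
structure HypL (p : ℕ) (sig tau : ℕ → ℕ) : Prop where
  hp : 5 ≤ p
  podd : p % 2 = 1
  sig_mem : ∀ a, 1 ≤ a → a ≤ p → 1 ≤ sig a ∧ sig a ≤ p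
  tau_mem : ∀ b, 1 ≤ b → b ≤ p → 1 ≤ tau b ∧ tau b ≤ p
  tau_sig : ∀ a, 1 ≤ a → a ≤ p → tau (sig a) = a
  sig_tau : ∀ b, 1 ≤ b → b ≤ p → sig (tau b) = b
  sig_p : sig p = p
  a_down : ∀ a, 1 ≤ a → a < p → sig (a + 1) < sig a → sig (a + 1) < sig 1 →
    (sig (a + 1) + sig a) % 2 = 1
  a_up : ∀ a, 1 ≤ a → a < p → sig a < sig (a + 1) → sig a ≤ sig 1 + 1 →
    (sig (a + 1) + sig a) % 2 = 0
  b_up : ∀ b, 1 ≤ b → b < p → tau b < tau (b + 1) → b ≤ sig 1 → (tau (b + 1) + tau b) % 2 = 1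
  b_down : ∀ b, 1 ≤ b → b < p → tau (b + 1) < tau b → b ≤ sig 1 → (tau (b + 1) + tau b) % 2 = 0
  m_even : sig 1 % 2 = 0
  n_odd : tau 1 % 2 = 1
  nm : ∀ a, 1 ≤ a → a < p → sig a < sig (a + 1) → sig 1 ≤ sig (a + 1)

end Pool.Agent.Helper61.RigidL
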