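import Pool.Agent.Helper61.RigidL.CertF

/-!
The two facts used for the strictness of the certificates: the kept spokes are low, and the end
spokes do not separate the rim edges (helper61).
-/

namespace Pool.Agent.Helper61.RigidL

open Pool.Agent.Helper61.Rigid

variable {p : ℕ} {sig tau : ℕ → ℕ} {i : ℕ} {t x : ℕ → ℕ}

/-- If a set of vertices is closed under the rim edges in `Z` and under the kept spokes except
the end spoke `c`, then all the rim edges in `Z` are on the same side. Here `S true a` is the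
vertex of the first rim at the column `a` and `S false a` the other end of its spoke. -/
def EndOK (p : ℕ) (sig : ℕ → ℕ) (zA zB X : ℕ → Prop) (s t : Bool × ℕ) : Prop :=
  ∀ c, (c = s.2 ∨ c = t.2) → ∀ S : Bool → ℕ → Prop,
    (∀ a, 1 ≤ a → a ≤ p → zA a → (S true a ↔ S true (nx p a))) →
    (∀ a a', 1 ≤ a → a ≤ p → 1 ≤ a' → a' ≤ p → zB (sig a) → sig a' = nx p (sig a) →
      (S false a ↔ S false a')) →
    (∀ a, 1 ≤ a → a ≤ p → X a → a ≠ c → (S true a ↔ S false a)) →
    ∃ v : Prop, (∀ a, 1 ≤ a → a ≤ p → zA a → (S true a ↔ v)) ∧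
      (∀ a, 1 ≤ a → a ≤ p → zB (sig a) → (S false a ↔ v))

/-- A certificate with the two facts. -/
structure CertL (p : ℕ) (sig : ℕ → ℕ) (zA zB X : ℕ → Prop) (cA cB : ℕ → ℕ) (s t : Bool × ℕ) :
    Prop where
  cert : Cert p sig zA zB X cA cB s t
  low : ∀ a, 1 ≤ a → a ≤ p → X a → a = s.2 ∨ a = t.2 ∨ a = p ∨ sig a ≤ sig 1 + 1
  ends : EndOK p sig zA zB X s t

theorem fr_low (H : HypL p sig tau) {K KA : ℕ} {n : ℕ → ℕ} {h : ℕ} {s u : Bool × ℕ}
    (F : Fr p sig i t x K KA n h s u) :
    ∀ a, 1 ≤ a → a ≤ p → fX p i K KA t x n a →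
      a = s.2 ∨ a = u.2 ∨ a = p ∨ sig a ≤ sig 1 + 1 := by
  intro a ha hap hX
  have L := F.L
  have hst : ∀ j ≤ i, sig (t j) ≤ sig 1 := by
    intro j hj
    have := L.st_le (Nat.zero_le j) hj
    rw [L.t0] at this
    exact this
  rcases hX with h3 | ⟨j, hj, h3⟩ | ⟨j, hj, h3⟩ | ⟨q, hq, h3⟩ | ⟨q, hq, h3⟩
  · exact Or.inr (Or.inr (Or.inl h3))
  · rcases Nat.lt_or_ge i j with h5 | h5
    · have h6 : j = i + 1 := by omega
      subst h6
      rcases F.hv with ⟨_, _, _, ⟨_, h7⟩ | ⟨h7, _⟩⟩ | ⟨_, _, h7, _⟩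
      · right; left
        rw [h7]; exact h3
      · right; right; left
        rw [h3]; exact h7
      · right; right; right
        have := hst i le_rfl
        rw [h3]; omega
    · right; right; right
      have := hst j h5
      rw [h3]; omega
  · right; right; right
    have h4 := hst j hj
    have h5 := L.sx j hj
    rw [h3]; omega
  · right; right; right
    rcases Nat.lt_or_ge q K with h4 | h4
    · have h5 := F.C.sn_lt q K h4 le_rfl
      have h6 := F.nK.2.2.2
      rw [h3]; omega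
    · have h5 : q = K := by omega
      have h6 := F.nK.2.2.2
      rw [h3, h5]; omega
  · rcases Nat.lt_or_ge q K with h4 | h4
    · right; right; right
      have := cd_sl_lt H F.L F.C h4
      rw [h3]; omega
    · left
      rcases F.ty with ⟨h5, _⟩ | ⟨h5, h6, _⟩
      · omega
      · have h7 : q = K := by omega
        rw [h6, h3, h7]

theorem fr_ends (H : HypL p sig tau) {K KA : ℕ} {n : ℕ → ℕ} {h : ℕ} {s u : Bool × ℕ}
    (F : Fr p sig i t x K KA n h s u) :
    EndOK p sig (fzA p i KA t x n) (fzB sig i K h t n) (fX p i K KA t x n) s u := by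
  intro c hc S hA hB hX
  have hp := H.hp
  have ho := H.podd
  have hme := H.m_even
  obtain ⟨hm2, hmp⟩ := H.m_lt
  obtain ⟨hnK1, hnK2, hnK3, hnK4⟩ := F.nK
  have L := F.L
  have C := F.C
  have hKA : K ≤ KA ∧ KA ≤ K + 1 := by
    rcases F.ty with ⟨h1, _⟩ | ⟨h1, _⟩ <;> omega
  have hst : ∀ j ≤ i, sig (t j) ≤ sig 1 := by
    intro j hj
    have := L.st_le (Nat.zero_le j) hj
    rw [L.t0] at this
    exact this
  -- the spokes which are not end spokes
  have hnot : ∀ a, a ≠ s.2 → a ≠ u.2 → a ≠ c := by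
    intro a h1 h2 h3
    rcases hc with h4 | h4
    · exact h1 (h3.trans h4)
    · exact h2 (h3.trans h4)
  have hs2 : s.2 = n K ∨ s.2 = n K - 1 ∧ 3 ≤ n K ∧ sig (n K - 1) % 2 = 0 ∧ n K % 2 = 1 := by
    rcases F.ty with ⟨_, h4⟩ | ⟨_, h4, h5, h6, _, h7, _⟩
    · left; rw [h4]
    · right; rw [h4]; exact ⟨rfl, h6, h7, h5⟩
  have hu2 : (t (i + 1) ≠ p ∧ u.2 = t (i + 1) ∧ sig 1 < sig (t (i + 1))) ∨
      (t (i + 1) = p ∧ u.2 = 1) ∨ (u.2 = p ∧ t (i + 1) < p ∧ sig (t (i + 1)) < sig (t i) ∧
        h = sig (t (i + 1))) := by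
    rcases F.hv with ⟨_, _, h6, ⟨h4, h5⟩ | ⟨h4, h5⟩⟩ | ⟨h6, _, h7, h4, h5⟩
    · left; rw [h5]; exact ⟨h4, rfl, h6⟩
    · right; left; rw [h5]; exact ⟨h4, rfl⟩
    · right; right; rw [h5]; exact ⟨rfl, h4, h7, h6⟩
  -- even points `t j` are not `n K`, nor `n K - 1`
  have hsS : ∀ a, 1 ≤ a → a ≤ p → a % 2 = 1 → sig a % 2 = 0 → a ≠ s.2 := by
    intro a _ _ h1 h2 h3
    rcases hs2 with h4 | ⟨h4, h5, h6, h7⟩
    · rw [h3, h4] at h2; omega
    · omega
  have hxS : ∀ j ≤ i, x j ≠ s.2 := by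
    intro j hj h3
    rcases hs2 with h4 | ⟨h4, h5, h6, h7⟩
    · exact F.nKx j hj (by rw [← h4, h3])
    · have h8 := L.sx j hj
      have h9 := L.sev j hj
      rw [h3, h4] at h8
      omega
  have hxu : ∀ j ≤ i, x j ≠ u.2 := by
    intro j hj h3
    have h1 := L.xp j hj
    have h2 := L.tx j hj
    have h4 := L.tpos j (by omega)
    have h5 := L.xev j hj
    have h6 := L.todd (i + 1) le_rfl
    rcases hu2 with ⟨_, h7, _⟩ | ⟨_, h7⟩ | ⟨h7, _⟩ <;> omega
  have htu : ∀ j ≤ i, 1 ≤ j → t j ≠ u.2 := by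
    intro j hj hj1 h3
    have h1 := L.t_lt (j := j) (j' := i + 1) (by omega) le_rfl
    have h2 := L.tpos (i + 1) le_rfl
    have h4 := L.t_lt (j := 0) (j' := j) (by omega) (by omega)
    rw [L.t0] at h4
    rcases hu2 with ⟨_, h7, _⟩ | ⟨_, h7⟩ | ⟨h7, _⟩ <;> omega
  have hxp : ∀ j ≤ i, 1 ≤ x j ∧ x j ≤ p := by
    intro j hj
    have h1 := L.xp j hj
    have h2 := L.tx j hj
    omega
  have htS : ∀ j ≤ i, t j ≠ s.2 := by
    intro j hj
    have h4 := L.tpos j (by omega)
    exact hsS _ h4.1 h4.2 (L.todd j (by omega)) (L.sev j hj)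
  -- closure along the staircase
  have ex : ∀ j ≤ i, (S true (x j) ↔ S false (x j)) := fun j hj =>
    hX _ (hxp j hj).1 (hxp j hj).2 (Or.inr (Or.inr (Or.inl ⟨j, hj, rfl⟩)))
      (hnot _ (hxS j hj) (hxu j hj))
  have eA : ∀ j ≤ i, (S true (x j) ↔ S true (t (j + 1))) := by
    intro j hj
    have h1 := hA (x j) (hxp j hj).1 (hxp j hj).2 (Or.inl ⟨j, hj, rfl⟩)
    have h2 := L.xp j hj
    rw [nx_ne (by omega), ← L.ts j hj] at h1
    exact h1
  have eB : ∀ j ≤ i, (S false (t j) ↔ S false (x j)) := by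
    intro j hj
    have h4 := L.tpos j (by omega)
    refine hB (t j) (x j) h4.1 h4.2 (hxp j hj).1 (hxp j hj).2 (Or.inl ⟨j, hj, rfl⟩) ?_
    rw [L.sx j hj, nx_ne]
    have := hst j hj
    omega
  have et : ∀ j ≤ i, 1 ≤ j → (S true (t j) ↔ S false (t j)) := fun j hj hj1 =>
    hX _ (L.tpos j (by omega)).1 (L.tpos j (by omega)).2 (Or.inr (Or.inl ⟨j, by omega, rfl⟩))
      (hnot _ (htS j hj) (htu j hj hj1))
  have hx : ∀ j ≤ i, (S true (x j) ↔ S true (x 0)) := by
    intro j
    induction j with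
    | zero => intro _; exact Iff.rfl
    | succ r ih =>
      intro hr
      have h1 := ih (by omega)
      rw [← h1, eA r (by omega), et (r + 1) hr (by omega), eB (r + 1) hr, ex (r + 1) hr]
  have hxf : ∀ j ≤ i, (S false (x j) ↔ S true (x 0)) := fun j hj => by
    rw [← ex j hj]; exact hx j hj
  have htf : ∀ j ≤ i, (S false (t j) ↔ S true (x 0)) := fun j hj => by
    rw [eB j hj]; exact hxf j hj
  have hts : ∀ j ≤ i, (S true (t (j + 1)) ↔ S true (x 0)) := fun j hj => by
    rw [← eA j hj]; exact hx j hj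
  -- the edge (p, 1) of the first rim
  have hpS : p ≠ s.2 := by
    intro h3
    rcases hs2 with h4 | ⟨h4, h5, h6, h7⟩
    · rw [← h4, ← h3, H.sig_p] at hnK4
      omega
    · rw [← h4, ← h3, H.sig_p] at h6
      omega
  have h1S : (1 : ℕ) ≠ s.2 := by
    have := hsS 1 le_rfl (by omega) (by omega) hme
    exact this
  have hpp : t (i + 1) ≠ p → (S true p ↔ S true (x 0)) := by
    intro h1
    have h2 := hA p (by omega) le_rfl (Or.inr (Or.inr ⟨rfl, h1⟩))
    rw [nx_self] at h2
    have h3 : (S true 1 ↔ S false 1) := by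
      refine hX 1 le_rfl (by omega) (Or.inr (Or.inl ⟨0, by omega, L.t0.symm⟩)) (hnot _ h1S ?_)
      have h6 := L.tpos (i + 1) le_rfl
      have h7 := L.ts i le_rfl
      have h8 := L.tx i le_rfl
      have h9 := L.tpos i (by omega)
      rcases hu2 with ⟨_, h5, _⟩ | ⟨h5, _⟩ | ⟨h5, _⟩
      · omega
      · exact absurd h5 h1
      · omega
    have h4 := htf 0 (by omega)
    rw [L.t0] at h4
    rw [h2, h3, h4]
  have hpv : S true p ↔ S true (x 0) := by
    by_cases h1 : t (i + 1) = p
    · rw [← h1]; exact hts i le_rfl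
    · exact hpp h1
  -- the start of the chain
  have hn0 : 1 ≤ n 0 ∧ n 0 ≤ p := by
    rcases Nat.eq_zero_or_pos K with h1 | h1
    · rw [h1] at hnK1 hnK2; exact ⟨hnK1, hnK2⟩
    · have h2 := C.n3 0 h1
      have h3 := C.np 0 h1
      omega
  have hnf0 : S false (n 0) ↔ S true (x 0) := by
    rcases F.hv with ⟨h1, h2, h3, h4⟩ | ⟨h1, h2, h3, h4, h5⟩
    · have h6 : S false p ↔ S false (n 0) := by
        refine hB p (n 0) (by omega) le_rfl hn0.1 hn0.2 ?_ ?_
        · rw [H.sig_p]; exact Or.inr (Or.inr h1.symm)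
        · rw [F.n0, H.sig_p, h1]
      have h7 : S true p ↔ S false p := by
        refine hX p (by omega) le_rfl (Or.inl rfl) (hnot _ hpS ?_)
        rcases hu2 with ⟨h8, h9, _⟩ | ⟨_, h9⟩ | ⟨h9, h10, h11, h12⟩
        · omega
        · omega
        · have := hst i le_rfl
          omega
      rw [← h6, ← h7]; exact hpv
    · have h6 := L.tpos (i + 1) le_rfl
      have h7 : S false (t (i + 1)) ↔ S false (n 0) := by
        refine hB (t (i + 1)) (n 0) h6.1 h6.2 hn0.1 hn0.2 ?_ ?_
        · exact Or.inr (Or.inr h1.symm)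
        · rw [F.n0, h1]
      have h8 : S true (t (i + 1)) ↔ S false (t (i + 1)) := by
        refine hX _ h6.1 h6.2 (Or.inr (Or.inl ⟨i + 1, le_rfl, rfl⟩)) (hnot _ ?_ ?_)
        · exact hsS _ h6.1 h6.2 (L.todd (i + 1) le_rfl) h2
        · rw [h5]; exact h4.ne
      rw [← h7, ← h8]; exact hts i le_rfl
  -- closure along the chain
  have hcn : ∀ q ≤ K, 1 ≤ n q ∧ n q ≤ p := by
    intro q hq
    rcases Nat.lt_or_ge q K with h1 | h1
    · have h2 := C.n3 q h1
      have h3 := C.np q h1
      omega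
    · have : q = K := by omega
      rw [this]; exact ⟨hnK1, hnK2⟩
  have hnu : ∀ q, q < K → n q ≠ u.2 ∧ n q - 1 ≠ u.2 := by
    intro q hq
    have h2 := C.n3 q hq
    have h3 := C.np q hq
    have h4 := C.sodd q hq
    have h5 := C.sn_lt q K hq le_rfl
    have h6 := cd_sl_lt H L C hq
    rcases hu2 with ⟨_, h7, h8⟩ | ⟨_, h7⟩ | ⟨h7, _⟩
    · constructor
      · intro h9; rw [h9, h7] at h5; omega
      · intro h9; rw [h9, h7] at h6; omega
    · omega
    · omega
  have hnK' : ∀ q, q < K → n q ≠ s.2 ∧ n q - 1 ≠ s.2 := by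
    intro q hq
    have h2 := C.n3 q hq
    have h3 := C.np q hq
    have h4 := C.sodd q hq
    have h5 := C.sn_lt q K hq le_rfl
    have h6 := C.sev q hq
    have h7 := C.nodd q hq
    rcases hs2 with h8 | ⟨h8, h9, h10, h11⟩
    · constructor
      · intro h12; rw [h12, h8] at h5; omega
      · intro h12; rw [h12, h8] at h6; omega
    · constructor
      · omega
      · intro h12
        have h13 : n q = n K := by omega
        rw [h13] at h5; omega
  have hnf : ∀ q ≤ K, (S false (n q) ↔ S true (x 0)) := by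
    intro q
    induction q with
    | zero => intro _; exact hnf0
    | succ r ih =>
      intro hr
      have h0 : r < K := by omega
      have h1 := ih (by omega)
      have h2 := hcn r (by omega)
      have h3 := C.n3 r h0
      have h4 := hnu r h0
      have h5 := hnK' r h0
      have h6 : S true (n r) ↔ S false (n r) :=
        hX _ h2.1 h2.2 (Or.inr (Or.inr (Or.inr (Or.inl ⟨r, by omega, rfl⟩))))
          (hnot _ h5.1 h4.1)
      have h7 : S true (n r - 1) ↔ S true (n r) := by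
        have h8 := hA (n r - 1) (by omega) (by omega) (Or.inr (Or.inl ⟨r, by omega, rfl⟩))
        rw [nx_ne (by omega)] at h8
        have h9 : n r - 1 + 1 = n r := by omega
        rw [h9] at h8
        exact h8
      have h8 : S true (n r - 1) ↔ S false (n r - 1) :=
        hX _ (by omega) (by omega) (Or.inr (Or.inr (Or.inr (Or.inr ⟨r, by omega, rfl⟩))))
          (hnot _ h5.2 h4.2)
      have h9 : S false (n r - 1) ↔ S false (n (r + 1)) := by
        have h10 := hcn (r + 1) hr
        refine hB _ _ (by omega) (by omega) h10.1 h10.2 (Or.inr (Or.inl ⟨r, h0, rfl⟩)) ?_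
        have h11 := cd_sl_lt H L C h0
        rw [C.step r h0, nx_ne (by omega)]
      rw [← h9, ← h8, h7, h6]; exact h1
  have hlt : ∀ q < KA, (S true (n q - 1) ↔ S true (x 0)) := by
    intro q hq
    have g := F.lq hq
    have h2 := hcn q (by omega)
    have h7 : S true (n q - 1) ↔ S true (n q) := by
      have h8 := hA (n q - 1) (by omega) (by omega) (Or.inr (Or.inl ⟨q, hq, rfl⟩))
      rw [nx_ne (by omega)] at h8
      have h9 : n q - 1 + 1 = n q := by omega
      rw [h9] at h8
      exact h8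
    have h6 : S true (n q) ↔ S false (n q) := by
      refine hX _ h2.1 h2.2 (Or.inr (Or.inr (Or.inr (Or.inl ⟨q, by omega, rfl⟩)))) ?_
      rcases Nat.lt_or_ge q K with h1 | h1
      · exact hnot _ (hnK' q h1).1 (hnu q h1).1
      · have h3 : q = K := by omega
        have h4 : KA = K + 1 := by omega
        subst h3
        apply hnot
        · rcases F.ty with ⟨h5, _⟩ | ⟨_, h5, _⟩
          · omega
          · rw [h5]
            show n q ≠ n q - 1
            omega
        · intro h5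
          rcases hu2 with ⟨_, h7, h8⟩ | ⟨_, h7⟩ | ⟨h7, _⟩
          · rw [h5, h7] at hnK4; omega
          · omega
          · omega
    rw [h7, h6]; exact hnf q (by omega)
  refine ⟨S true (x 0), ?_, ?_⟩
  · rintro a ha hap (⟨j, hj, h3⟩ | ⟨q, hq, h3⟩ | ⟨h3, h4⟩)
    · rw [h3]; exact hx j hj
    · rw [h3]; exact hlt q hq
    · rw [h3]; exact hpv
  · rintro a ha hap (⟨j, hj, h3⟩ | ⟨q, hq, h3⟩ | h3)
    · have h4 := L.tpos j (by omega)
      have h5 := H.sig_inj ha hap h4.1 h4.2 h3
      rw [h5]; exact htf j hj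
    · have h4 := C.n3 q hq
      have h6 := C.np q hq
      have h5 := H.sig_inj ha hap (by omega) (by omega) h3
      have h7 := hcn (q + 1) (by omega)
      have h8 : S false (n q - 1) ↔ S false (n (q + 1)) := by
        refine hB _ _ (by omega) (by omega) h7.1 h7.2 (Or.inr (Or.inl ⟨q, hq, rfl⟩)) ?_
        have h11 := cd_sl_lt H L C hq
        rw [C.step q hq, nx_ne (by omega)]
      rw [h5, h8]; exact hnf (q + 1) (by omega)
    · rcases F.hv with ⟨h1, _⟩ | ⟨h1, _⟩
      · have h2 : a = p := by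
          apply H.sig_inj ha hap (by omega) le_rfl
          rw [h3, h1, H.sig_p]
        have h6 : S false p ↔ S false (n 0) := by
          refine hB p (n 0) (by omega) le_rfl hn0.1 hn0.2 ?_ ?_
          · rw [H.sig_p]; exact Or.inr (Or.inr h1.symm)
          · rw [F.n0, H.sig_p, h1]
        rw [h2, h6]; exact hnf0
      · have h5 := L.tpos (i + 1) le_rfl
        have h2 : a = t (i + 1) := by
          apply H.sig_inj ha hap h5.1 h5.2
          rw [h3, h1]
        have h7 : S false (t (i + 1)) ↔ S false (n 0) := by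
          refine hB (t (i + 1)) (n 0) h5.1 h5.2 hn0.1 hn0.2 ?_ ?_
          · exact Or.inr (Or.inr h1.symm)
          · rw [F.n0, h1]
        rw [h2, h7]; exact hnf0

end Pool.Agent.Helper61.RigidL
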