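import Pool.Agent.Helper61.RigidL.NFrame

/-!
The certificate N: colours, and the two facts used for the strictness (helper61).
-/

namespace Pool.Agent.Helper61.RigidL

open Pool.Agent.Helper61.Rigid

variable {p : ℕ} {sig tau : ℕ → ℕ}
variable {x0 n0 r rr : ℕ} {y : ℕ → ℕ} {g : Prop} {s t : Bool × ℕ}

theorem nf_low (H : HypL p sig tau) (F : NF p sig x0 n0 r rr y g s t) :
    ∀ a, 1 ≤ a → a ≤ p → nX p x0 n0 r rr y g a →
      a = s.2 ∨ a = t.2 ∨ a = p ∨ sig a ≤ sig 1 + 1 := by
  intro a ha hap hX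
  obtain ⟨hm2, hmp⟩ := H.m_lt
  have f3 := F.sx
  have f6 := F.tl
  have f10 := F.sn
  rcases hX with h3 | h3 | h3 | h3 | ⟨q, hq, h3⟩ | ⟨q, hq, h3⟩ | ⟨hg, h3 | h3⟩
  · exact Or.inr (Or.inr (Or.inl h3))
  · right; right; right; rw [h3]; omega
  · right; right; right; rw [h3]; omega
  · right; right; right; rw [h3]; omega
  · right; right; right
    have := F.D.sm q hq
    rw [h3]; omega
  · rcases (F.hz hq).2.2.2.2.2 with ⟨h4, h5⟩ | ⟨h4, h5, _⟩
    · right; right; right
      rw [h3]; omega
    · left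
      rcases F.ty with ⟨_, h6, _⟩ | ⟨h6, _⟩
      · rw [h6, h3, h4]
      · omega
  · right; right; right
    rw [h3]; omega
  · right; left
    rcases F.gt with ⟨_, h4⟩ | ⟨hg', _⟩
    · rw [h4]; exact h3
    · exact absurd hg hg'

theorem nf_ends (H : HypL p sig tau) (F : NF p sig x0 n0 r rr y g s t) :
    EndOK p sig (nzA p x0 n0 rr y g) (nzB p sig x0 r y g) (nX p x0 n0 r rr y g) s t := by
  intro c hc S hA hB hX
  have hp := H.hp
  have ho := H.podd
  have hme := H.m_even
  obtain ⟨hm2, hmp⟩ := H.m_lt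
  have hrr := F.hrr
  have hsp := H.sig_p
  have f1 := F.x1
  have f3 := F.sx
  have f4 := F.tp
  have f5 := F.te
  have f6 := F.tl
  have f7 := F.no
  have f8 := F.n3
  have f9 := F.nx
  have f10 := F.sn
  have f11 := F.sn1
  have f12 := F.sn2
  have hs1 := H.sig_mem (x0 + 1) (by omega) (by omega)
  have hyr := F.D.y2 r le_rfl
  have hyp := F.D.yp r le_rfl
  have hso := F.D.so r le_rfl
  have hsm := F.D.sm r le_rfl
  have hse := F.D.se r le_rfl
  have hlt := F.D.lt r le_rfl
  have hhs := F.hs r le_rfl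
  have hnot : ∀ a, a ≠ s.2 → a ≠ t.2 → a ≠ c := by
    intro a h1 h2 h3
    rcases hc with h4 | h4
    · exact h1 (h3.trans h4)
    · exact h2 (h3.trans h4)
  have hs2 : (s.2 = y r - 1 ∧ rr = r + 1 ∧ sig 1 < sig (y r - 1)) ∨ (s.2 = y r ∧ rr = r) := by
    rcases F.ty with ⟨h1, h2, h3⟩ | ⟨h1, h2, _⟩
    · left; rw [h2]; exact ⟨rfl, h1, h3⟩
    · right; rw [h2]; exact ⟨rfl, h1⟩
  have ht2 : (g ∧ t.2 = n0 + 1) ∨ (¬ g ∧ t.2 = p) := by
    rcases F.gt with ⟨h1, h2⟩ | ⟨h1, h2⟩
    · left; rw [h2]; exact ⟨h1, rfl⟩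
    · right; rw [h2]; exact ⟨h1, rfl⟩
  -- a point which is not the left end
  have nS : ∀ a, 1 ≤ a → a ≤ p → sig a ≠ sig (y r) → sig a ≠ sig (y r - 1) → a ≠ s.2 := by
    intro a ha hap h1 h2 h3
    rcases hs2 with ⟨h4, _⟩ | ⟨h4, _⟩
    · rw [h3, h4] at h2; exact h2 rfl
    · rw [h3, h4] at h1; exact h1 rfl
  have nS' : ∀ a, 1 ≤ a → a ≤ p → a % 2 = 1 ∨ a % 2 = 0 := fun a _ _ => by omega
  -- the left part
  have e1 : S true x0 ↔ S true (x0 + 1) := by
    have h := hA x0 (by omega) (by omega) (Or.inl rfl)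
    rwa [nx_ne (by omega)] at h
  have c1 : x0 ≠ s.2 := by
    intro h3
    rcases hs2 with ⟨h4, _, h5⟩ | ⟨h4, _⟩
    · rw [← h4, ← h3, f3] at hse; omega
    · rw [← h4, ← h3, f3] at hsm; omega
  have c1' : x0 ≠ t.2 := by
    rcases ht2 with ⟨_, h⟩ | ⟨_, h⟩ <;> omega
  have e2 : S true x0 ↔ S false x0 :=
    hX x0 (by omega) (by omega) (Or.inr (Or.inr (Or.inl rfl))) (hnot _ c1 c1')
  have e3 : S false 1 ↔ S false x0 := by
    refine hB 1 x0 le_rfl (by omega) (by omega) (by omega) (Or.inl rfl) ?_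
    rw [f3, nx_ne (by omega)]
  have c2 : (1 : ℕ) ≠ s.2 := by
    intro h3
    rcases hs2 with ⟨h4, _, h5⟩ | ⟨h4, _⟩
    · rw [← h4, ← h3] at h5; omega
    · omega
  have c2' : (1 : ℕ) ≠ t.2 := by
    rcases ht2 with ⟨_, h⟩ | ⟨_, h⟩ <;> omega
  have e4 : S true 1 ↔ S false 1 :=
    hX 1 (by omega) (by omega) (Or.inr (Or.inl rfl)) (hnot _ c2 c2')
  have e5 : S true p ↔ S true 1 := by
    have h := hA p (by omega) le_rfl (Or.inr (Or.inr (Or.inl rfl)))
    rwa [nx_self] at h
  have hpv : S true p ↔ S true x0 := by rw [e5, e4, e3, ← e2]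
  have c3 : x0 + 1 ≠ s.2 := by
    intro h3
    rcases hs2 with ⟨h4, _, h5⟩ | ⟨h4, _⟩
    · rw [← h4, ← h3] at hlt; omega
    · rw [← h4, ← h3] at hhs; omega
  have c3' : x0 + 1 ≠ t.2 := by
    rcases ht2 with ⟨_, h⟩ | ⟨_, h⟩ <;> omega
  have e6 : S true (x0 + 1) ↔ S false (x0 + 1) :=
    hX (x0 + 1) (by omega) (by omega) (Or.inr (Or.inr (Or.inr (Or.inl rfl)))) (hnot _ c3 c3')
  have htf : S false (x0 + 1) ↔ S true x0 := by rw [← e6, ← e1]
  have hy : ∀ q ≤ r, 1 ≤ y q ∧ y q ≤ p := by
    intro q hq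
    have h1 := F.D.y2 q hq
    have h2 := F.D.yp q hq
    omega
  have e7 : S false (x0 + 1) ↔ S false (y 0) := by
    refine hB _ _ (by omega) (by omega) (hy 0 (by omega)).1 (hy 0 (by omega)).2
      (Or.inr (Or.inl rfl)) ?_
    rw [F.y0, nx_ne (by omega)]
  -- along the chain
  have cy : ∀ q ≤ r, (q < rr) → (y q ≠ s.2 ∧ y q ≠ t.2) := by
    intro q hq hqr
    have h1 := F.D.so q hq
    have h2 := F.D.sm q hq
    have h3 := F.D.yp q hq
    have h4 := F.D.y_le hq le_rfl
    constructor
    · intro h5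
      rcases hs2 with ⟨h6, _⟩ | ⟨h6, h7⟩
      · rw [← h6, ← h5] at hlt; omega
      · have h8 := F.D.y_lt (q := q) (q' := r) (by omega) le_rfl
        rw [h5, h6] at h8; omega
    · intro h5
      rcases ht2 with ⟨_, h6⟩ | ⟨_, h6⟩
      · rw [h5, h6] at h2; omega
      · omega
  have cz : ∀ q < r, (y q - 1 ≠ s.2 ∧ y q - 1 ≠ t.2) := by
    intro q hq
    have h1 := F.D.se q (by omega)
    have h2 := F.D.low q hq
    have h3 := F.D.yp q (by omega)
    have h4 := F.D.s_lt q r hq le_rfl
    constructor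
    · intro h5
      rcases hs2 with ⟨h6, _⟩ | ⟨h6, h7⟩
      · rw [h5, h6] at h4; omega
      · rw [h5, h6] at h4; omega
    · intro h5
      rcases ht2 with ⟨_, h6⟩ | ⟨_, h6⟩
      · rw [h5, h6] at h1; omega
      · omega
  have eA : ∀ q < rr, (S true (y q - 1) ↔ S true (y q)) := by
    intro q hq
    have h1 := F.hz hq
    have h8 := hA (y q - 1) (by omega) (by omega) (Or.inr (Or.inl ⟨q, hq, rfl⟩))
    rw [nx_ne (by omega)] at h8
    have h9 : y q - 1 + 1 = y q := by omega
    rwa [h9] at h8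
  have eX : ∀ q < rr, (S true (y q) ↔ S false (y q)) := by
    intro q hq
    have h1 := F.hz hq
    exact hX _ (hy q h1.1).1 (hy q h1.1).2
      (Or.inr (Or.inr (Or.inr (Or.inr (Or.inl ⟨q, h1.1, rfl⟩)))))
      (hnot _ (cy q h1.1 hq).1 (cy q h1.1 hq).2)
  have eZ : ∀ q < r, (S true (y q - 1) ↔ S false (y q - 1)) := by
    intro q hq
    have h1 := F.D.y2 q (by omega)
    have h2 := F.D.yp q (by omega)
    exact hX _ (by omega) (by omega)
      (Or.inr (Or.inr (Or.inr (Or.inr (Or.inr (Or.inl ⟨q, by omega, rfl⟩))))))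
      (hnot _ (cz q hq).1 (cz q hq).2)
  have eB : ∀ q < r, (S false (y q - 1) ↔ S false (y (q + 1))) := by
    intro q hq
    have h1 := F.D.y2 q (by omega)
    have h2 := F.D.yp q (by omega)
    have h3 := hy (q + 1) (by omega)
    have h4 := F.D.low q hq
    refine hB _ _ (by omega) (by omega) h3.1 h3.2 (Or.inr (Or.inr (Or.inl ⟨q, hq, rfl⟩))) ?_
    rw [F.D.step q hq, nx_ne (by omega)]
  have hyf : ∀ q ≤ r, (S false (y q) ↔ S true x0) := by
    intro q
    induction q with
    | zero => intro _; rw [← e7]; exact htf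
    | succ k ih =>
      intro hk
      have h1 := ih (by omega)
      rw [← eB k (by omega), ← eZ k (by omega), eA k (by omega), eX k (by omega)]
      exact h1
  -- the right part
  have hn1 : g → (S false n0 ↔ S true x0) := by
    intro hg
    have c4 : p ≠ s.2 := by
      rcases hs2 with ⟨h4, _, _⟩ | ⟨h4, _⟩ <;> omega
    have c4' : p ≠ t.2 := by
      rcases ht2 with ⟨_, h⟩ | ⟨h, _⟩
      · omega
      · exact absurd hg h
    have h1 : S true p ↔ S false p := hX p (by omega) le_rfl (Or.inl rfl) (hnot _ c4 c4')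
    have h2 : S false p ↔ S false n0 := by
      refine hB p n0 (by omega) le_rfl (by omega) (by omega) (Or.inr (Or.inr (Or.inr ⟨hg, hsp⟩))) ?_
      rw [f10, hsp, nx_self]
    rw [← h2, ← h1]; exact hpv
  have hn2 : g → (S true n0 ↔ S true x0) := by
    intro hg
    have c5 : n0 ≠ s.2 := by
      intro h3
      rcases hs2 with ⟨h4, _⟩ | ⟨h4, _⟩
      · rw [← h4, ← h3] at hlt; omega
      · rw [← h4, ← h3] at hhs; omega
    have c5' : n0 ≠ t.2 := by
      rcases ht2 with ⟨_, h⟩ | ⟨_, h⟩ <;> omega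
    have h1 : S true n0 ↔ S false n0 := hX n0 (by omega) (by omega)
      (Or.inr (Or.inr (Or.inr (Or.inr (Or.inr (Or.inr ⟨hg, Or.inl rfl⟩)))))) (hnot _ c5 c5')
    rw [h1]; exact hn1 hg
  refine ⟨S true x0, ?_, ?_⟩
  · rintro a ha hap (h3 | ⟨q, hq, h3⟩ | h3 | ⟨hg, h3⟩)
    · rw [h3]
    · rw [h3, eA q hq, eX q hq]
      exact hyf q (F.hz hq).1
    · rw [h3]; exact hpv
    · rw [h3]; exact hn2 hg
  · rintro a ha hap (h3 | h3 | ⟨q, hq, h3⟩ | ⟨hg, h3⟩)
    · have h4 := H.sig_inj ha hap (by omega) (by omega) h3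
      rw [h4, e3, ← e2]
    · have h4 := H.sig_inj ha hap (by omega) (by omega) h3
      rw [h4]; exact htf
    · have h1 := F.D.y2 q (by omega)
      have h2 := F.D.yp q (by omega)
      have h4 := H.sig_inj ha hap (by omega) (by omega) h3
      rw [h4, eB q hq]
      exact hyf (q + 1) (by omega)
    · have h4 := H.sig_inj ha hap (by omega) le_rfl (h3.trans hsp.symm)
      have c4 : p ≠ s.2 := by
        rcases hs2 with ⟨h4, _, _⟩ | ⟨h4, _⟩ <;> omega
      have c4' : p ≠ t.2 := by
        rcases ht2 with ⟨_, h⟩ | ⟨h, _⟩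
        · omega
        · exact absurd hg h
      have h1 : S true p ↔ S false p := hX p (by omega) le_rfl (Or.inl rfl) (hnot _ c4 c4')
      rw [h4, ← h1]; exact hpv

theorem fg_congr {P Q : ℕ → Prop} [DecidablePred P] [DecidablePred Q] :
    ∀ k, (∀ q ≤ k, (P q ↔ Q q)) → Nat.findGreatest P k = Nat.findGreatest Q k := by
  intro k
  induction k with
  | zero => intro _; rfl
  | succ k ih =>
    intro h
    have h1 := ih (fun q hq => h q (by omega))
    rw [Nat.findGreatest_succ, Nat.findGreatest_succ, h1]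
    by_cases h2 : P (k + 1)
    · rw [if_pos h2, if_pos ((h _ le_rfl).1 h2)]
    · rw [if_neg h2, if_neg (fun h3 => h2 ((h _ le_rfl).2 h3))]

/-- The second colour. -/
def sBx (sig : ℕ → ℕ) (r : ℕ) (y : ℕ → ℕ) (h m : ℕ) (sA : ℕ → ℕ) (B0 Br Bt : ℕ) (b : ℕ) : ℕ :=
  if b ≤ h then B0 else if m < b then Bt else if sig (y r) ≤ b then Br else
    sA (y (Nat.findGreatest (fun q => sig (y q) ≤ b) r)) +
      y (Nat.findGreatest (fun q => sig (y q) ≤ b) r)

theorem nf_cert (H : HypL p sig tau) (F : NF p sig x0 n0 r rr y g s t) (sA : ℕ → ℕ)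
    (B0 Br Bt : ℕ)
    (hs : ∀ a, 1 ≤ a → a < p → a ≠ x0 → ¬ (rr = r + 1 ∧ a = y r - 1) → ¬ (g ∧ a = n0) →
      sA a = sA (a + 1))
    (h1 : (sA 1 + Br) % 2 = 0) (hx : (sA x0 + Bt) % 2 = 0) (ht : (sA (x0 + 1) + B0) % 2 = 0)
    (hpp : (sA p + Bt) % 2 = 1) (hyr : (sA (y r) + Br + y r) % 2 = 0)
    (hzr : rr = r + 1 → (sA (y r - 1) + y r + Bt) % 2 = 0)
    (hg1 : g → (sA n0 + B0) % 2 = 1) (hg2 : g → (sA (n0 + 1) + Bt) % 2 = 0)
    (hg3 : ¬ g → (B0 + Bt) % 2 = 1) :
    ∃ (zA zB X : ℕ → Prop) (cA cB : ℕ → ℕ) (s t : Bool × ℕ), CertL p sig zA zB X cA cB s t := by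
  have hp := H.hp
  have ho := H.podd
  have hme := H.m_even
  obtain ⟨hm2, hmp⟩ := H.m_lt
  have hrr := F.hrr
  have hsp := H.sig_p
  have f1 := F.x1
  have f2 := F.xe
  have f3 := F.sx
  have f4 := F.tp
  have f5 := F.te
  have f6 := F.tl
  have f7 := F.no
  have f8 := F.n3
  have f9 := F.nx
  have f10 := F.sn
  have f11 := F.sn1
  have f12 := F.sn2
  have hs1 := H.sig_mem (x0 + 1) (by omega) (by omega)
  have hyr2 := F.D.y2 r le_rfl
  have hyrp := F.D.yp r le_rfl
  have hso := F.D.so r le_rfl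
  have hsm := F.D.sm r le_rfl
  have hse := F.D.se r le_rfl
  have hlt := F.D.lt r le_rfl
  have hhs := F.hs r le_rfl
  -- the value at a point of the chain
  have hfg : ∀ q < r, ∀ b, sig (y q) ≤ b → b ≤ sig (y q - 1) →
      Nat.findGreatest (fun k => sig (y k) ≤ b) r = q := by
    intro q hq b hb1 hb2
    rw [Nat.findGreatest_eq_iff]
    refine ⟨by omega, fun _ => hb1, ?_⟩
    intro k hk1 hk2 hk3
    have := F.D.s_lt q k hk1 hk2
    omega
  have hval : ∀ q < r, ∀ b, sig (y q) ≤ b → b ≤ sig (y q - 1) →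
      sBx sig r y (sig (x0 + 1)) (sig 1) sA B0 Br Bt b = sA (y q) + y q := by
    intro q hq b hb1 hb2
    have h2 := F.hs q (by omega)
    have h3 := F.D.low q hq
    have h4 := F.D.s_lt q r hq le_rfl
    unfold sBx
    rw [if_neg (by omega), if_neg (by omega), if_neg (by omega), hfg q hq b hb1 hb2]
  have hsz : ∀ q < r, sA (y q - 1) = sA (y q) := by
    intro q hq
    have g1 := F.D.y2 q (by omega)
    have g2 := F.D.yp q (by omega)
    have g3 := F.D.se q (by omega)
    have g4 := F.D.low q hq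
    have g5 := F.D.s_lt q r hq le_rfl
    have g6 := F.D.lt q (by omega)
    have g7 := F.hs q (by omega)
    have h2 := hs (y q - 1) (by omega) (by omega) ?_ ?_ ?_
    · have h9 : y q - 1 + 1 = y q := by omega
      rwa [h9] at h2
    · intro h3; rw [h3] at g4; omega
    · rintro ⟨_, h3⟩
      rw [h3] at g5; omega
    · rintro ⟨_, h3⟩
      rw [h3] at g6; omega
  have C : Cert p sig (nzA p x0 n0 rr y g) (nzB p sig x0 r y g) (nX p x0 n0 r rr y g)
      (fun a => a + sA a) (fun b => b + sBx sig r y (sig (x0 + 1)) (sig 1) sA B0 Br Bt b)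
      s t := by
    have hst := nf_st H F
    refine ⟨?_, ?_, ?_, nf_oneA H F, nf_oneB H F, nf_notX H F, nf_covA H F, nf_covB H F,
      hst.1, hst.2.1, hst.2.2⟩
    · -- colA
      intro a ha hap hz
      have k1 : a ≠ p := fun h => hz (Or.inr (Or.inr (Or.inl h)))
      have h2 := hs a ha (by omega) (fun h => hz (Or.inl h)) ?_ ?_
      · rw [nx_ne k1]
        show (a + sA a + (a + 1 + sA (a + 1))) % 2 = 1
        omega
      · rintro ⟨h3, h4⟩
        exact hz (Or.inr (Or.inl ⟨r, by omega, h4⟩))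
      · rintro ⟨h3, h4⟩
        exact hz (Or.inr (Or.inr (Or.inr ⟨h3, h4⟩)))
    · -- colB
      intro b hb hbp hz
      have k2 : b ≠ sig 1 := fun h => hz (Or.inl h)
      have k3 : b ≠ sig (x0 + 1) := fun h => hz (Or.inr (Or.inl h))
      have k4 : ∀ q < r, b ≠ sig (y q - 1) := fun q hq h => hz (Or.inr (Or.inr (Or.inl ⟨q, hq, h⟩)))
      by_cases k1 : b = p
      · have hg : ¬ g := fun h => hz (Or.inr (Or.inr (Or.inr ⟨h, k1⟩)))
        have h2 := hg3 hg
        rw [k1, nx_self]
        show (p + sBx sig r y (sig (x0 + 1)) (sig 1) sA B0 Br Bt p +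
          (1 + sBx sig r y (sig (x0 + 1)) (sig 1) sA B0 Br Bt 1)) % 2 = 1
        unfold sBx
        rw [if_neg (by omega), if_pos (by omega), if_pos (by omega)]
        omega
      · rw [nx_ne k1]
        have key : sBx sig r y (sig (x0 + 1)) (sig 1) sA B0 Br Bt b =
            sBx sig r y (sig (x0 + 1)) (sig 1) sA B0 Br Bt (b + 1) := by
          have k5 : ∀ q ≤ r, sig (y q) ≠ b + 1 := by
            intro q hq h5
            rcases Nat.eq_zero_or_pos q with h6 | h6
            · have h7 := F.y0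
              rw [h6] at h5
              omega
            · obtain ⟨k, rfl⟩ : ∃ k, q = k + 1 := ⟨q - 1, by omega⟩
              have h7 := F.D.step k (by omega)
              exact k4 k (by omega) (by omega)
          have k6 := k5 r le_rfl
          unfold sBx
          by_cases c1 : b ≤ sig (x0 + 1)
          · rw [if_pos c1, if_pos (show b + 1 ≤ sig (x0 + 1) by omega)]
          · rw [if_neg c1, if_neg (show ¬ b + 1 ≤ sig (x0 + 1) by omega)]
            by_cases c2 : sig 1 < b
            · rw [if_pos c2, if_pos (show sig 1 < b + 1 by omega)]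
            · rw [if_neg c2, if_neg (show ¬ sig 1 < b + 1 by omega)]
              by_cases c3 : sig (y r) ≤ b
              · rw [if_pos c3, if_pos (show sig (y r) ≤ b + 1 by omega)]
              · rw [if_neg c3, if_neg (show ¬ sig (y r) ≤ b + 1 by omega)]
                have h8 : Nat.findGreatest (fun q => sig (y q) ≤ b) r =
                    Nat.findGreatest (fun q => sig (y q) ≤ b + 1) r := by
                  apply fg_congr
                  intro q hq
                  have := k5 q hq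
                  constructor <;> intro h <;> omega
                rw [h8]
        show (b + sBx sig r y (sig (x0 + 1)) (sig 1) sA B0 Br Bt b +
          (b + 1 + sBx sig r y (sig (x0 + 1)) (sig 1) sA B0 Br Bt (b + 1))) % 2 = 1
        rw [← key]
        omega
    · -- colX
      intro a ha hap hX
      show (a + sA a + (sig a + sBx sig r y (sig (x0 + 1)) (sig 1) sA B0 Br Bt (sig a))) % 2 = 1
      rcases hX with h3 | h3 | h3 | h3 | ⟨q, hq, h3⟩ | ⟨q, hq, h3⟩ | ⟨hg, h3 | h3⟩
      · rw [h3, hsp]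
        unfold sBx
        rw [if_neg (by omega), if_pos (by omega)]
        omega
      · rw [h3]
        unfold sBx
        rw [if_neg (by omega), if_neg (by omega), if_pos (by omega)]
        omega
      · rw [h3, f3]
        unfold sBx
        rw [if_neg (by omega), if_pos (by omega)]
        omega
      · rw [h3]
        unfold sBx
        rw [if_pos le_rfl]
        omega
      · have g2 := F.D.so q hq
        rcases Nat.lt_or_ge q r with h4 | h4
        · have g3 := F.D.lt q hq
          rw [h3, hval q h4 _ le_rfl g3.le]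
          omega
        · have h5 : q = r := by omega
          rw [h3, h5]
          unfold sBx
          rw [if_neg (by omega), if_neg (by omega), if_pos le_rfl]
          omega
      · have g1 := F.hz hq
        rcases g1.2.2.2.2.2 with ⟨h4, _⟩ | ⟨h4, h5, h6⟩
        · have g3 := F.D.lt q g1.1
          have g4 := hsz q h4
          rw [h3, hval q h4 _ g3.le le_rfl, g4]
          omega
        · have h7 := hzr h5
          rw [h4] at h6 h3
          rw [h3]
          unfold sBx
          rw [if_neg (by omega), if_pos (by omega)]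
          omega
      · have h4 := hg1 hg
        rw [h3, f10]
        unfold sBx
        rw [if_pos (by omega)]
        omega
      · have h4 := hg2 hg
        rw [h3]
        unfold sBx
        rw [if_neg (by omega), if_pos (by omega)]
        omega
  exact ⟨_, _, _, _, _, _, _, C, nf_low H F, nf_ends H F⟩

/-- The certificate N. -/
theorem cert_N (H : HypL p sig tau) (x0 n0 x1 : ℕ) (hx1 : 1 < x0) (hxe : x0 % 2 = 0)
    (hsx : sig x0 = sig 1 + 1) (htp : x0 + 1 < p) (hte : sig (x0 + 1) % 2 = 0)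
    (htl : sig (x0 + 1) < sig 1) (hno : n0 % 2 = 1) (hn3 : 3 ≤ n0) (hnx : n0 + 3 ≤ x0)
    (hsn : sig n0 = 1) (h2 : 2 ≤ x1) (h2p : x1 < p) (hs1 : sig x1 = sig (x0 + 1) + 1) :
    ∃ (zA zB X : ℕ → Prop) (cA cB : ℕ → ℕ) (s t : Bool × ℕ), CertL p sig zA zB X cA cB s t := by
  have hp := H.hp
  have ho := H.podd
  have hme := H.m_even
  obtain ⟨hm2, hmp⟩ := H.m_lt
  have hsp := H.sig_p
  obtain ⟨r, y, hy0, D, htop⟩ := exists_ND H x1 h2 h2p (by omega) (by omega)
  have hnm := H.nm n0 (by omega) (by omega)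
  have hup := H.a_up n0 (by omega) (by omega)
  have hsn1 := H.sig_mem (n0 + 1) (by omega) (by omega)
  have hne : sig (n0 + 1) ≠ 1 := by
    intro h
    have := H.sig_inj (by omega) (by omega) (by omega) (by omega) (h.trans hsn.symm)
    omega
  have g1 : sig (n0 + 1) % 2 = 1 := by
    have := hup (by omega) (by omega)
    omega
  have g2 : sig 1 < sig (n0 + 1) := by
    have := hnm (by omega)
    omega
  have y2 := D.y2 r le_rfl
  have yp := D.yp r le_rfl
  have so := D.so r le_rfl
  have sm := D.sm r le_rfl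
  have se := D.se r le_rfl
  have lt := D.lt r le_rfl
  by_cases c1 : y r = 2
  · -- the chain ends at the first column
    have F : NF p sig x0 n0 r r y True (true, y r) (false, n0 + 1) :=
      ⟨D, hx1, hxe, hsx, htp, hte, htl, hno, hn3, hnx, hsn, g1, g2, by rw [hy0]; exact hs1,
        Or.inr ⟨rfl, rfl, c1⟩, Or.inl ⟨trivial, rfl⟩⟩
    refine nf_cert H F (fun a => if a ≤ x0 then 1 else 0) 0 1 1 ?_ ?_ ?_ ?_ ?_ ?_ ?_ ?_ ?_ ?_
    · intro a ha hap h3 h4 h5
      show (if a ≤ x0 then 1 else 0) = (if a + 1 ≤ x0 then 1 else 0)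
      split_ifs <;> omega
    · show ((if 1 ≤ x0 then 1 else 0) + 1) % 2 = 0
      rw [if_pos (by omega)]
    · show ((if x0 ≤ x0 then 1 else 0) + 1) % 2 = 0
      rw [if_pos le_rfl]
    · show ((if x0 + 1 ≤ x0 then 1 else 0) + 0) % 2 = 0
      rw [if_neg (by omega)]
    · show ((if p ≤ x0 then 1 else 0) + 1) % 2 = 1
      rw [if_neg (by omega)]
    · show ((if y r ≤ x0 then 1 else 0) + 1 + y r) % 2 = 0
      rw [if_pos (by omega)]
      omega
    · intro h; omega
    · intro _
      show ((if n0 ≤ x0 then 1 else 0) + 0) % 2 = 1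
      rw [if_pos (by omega)]
    · intro _
      show ((if n0 + 1 ≤ x0 then 1 else 0) + 1) % 2 = 0
      rw [if_pos (by omega)]
    · intro h; exact absurd trivial h
  · have htop' : sig 1 < sig (y r - 1) := by
      rcases Nat.lt_or_ge (sig 1) (sig (y r - 1)) with h | h
      · exact h
      · exfalso
        have h3 : sig (y r - 1) = sig 1 := by omega
        have := H.sig_inj (by omega) (by omega) (by omega) (by omega) h3
        omega
    have hyx : y r ≠ x0 := by
      intro h; rw [h] at sm; omega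
    have hyx1 : y r ≠ x0 + 1 := by
      intro h; rw [h] at so; omega
    rcases Nat.lt_or_ge x0 (y r) with c2 | c2
    · -- the chain ends after `x0`
      have F : NF p sig x0 n0 r (r + 1) y True (false, y r - 1) (false, n0 + 1) :=
        ⟨D, hx1, hxe, hsx, htp, hte, htl, hno, hn3, hnx, hsn, g1, g2, by rw [hy0]; exact hs1,
          Or.inl ⟨rfl, rfl, htop'⟩, Or.inl ⟨trivial, rfl⟩⟩
      refine nf_cert H F (fun a => if a ≤ n0 then 1 else if a ≤ x0 then y r % 2 else
        if a < y r then 0 else 1 + y r % 2) 0 1 (y r % 2) ?_ ?_ ?_ ?_ ?_ ?_ ?_ ?_ ?_ ?_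
      · intro a ha hap h3 h4 h5
        have h4' : a ≠ y r - 1 := fun h => h4 ⟨rfl, h⟩
        have h5' : a ≠ n0 := fun h => h5 ⟨trivial, h⟩
        show (if a ≤ n0 then 1 else if a ≤ x0 then y r % 2 else
          if a < y r then 0 else 1 + y r % 2) = (if a + 1 ≤ n0 then 1 else
            if a + 1 ≤ x0 then y r % 2 else if a + 1 < y r then 0 else 1 + y r % 2)
        split_ifs <;> omega
      · show ((if 1 ≤ n0 then 1 else if 1 ≤ x0 then y r % 2 else
          if 1 < y r then 0 else 1 + y r % 2) + 1) % 2 = 0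
        rw [if_pos (by omega)]
      · show ((if x0 ≤ n0 then 1 else if x0 ≤ x0 then y r % 2 else
          if x0 < y r then 0 else 1 + y r % 2) + y r % 2) % 2 = 0
        rw [if_neg (by omega), if_pos le_rfl]
        omega
      · show ((if x0 + 1 ≤ n0 then 1 else if x0 + 1 ≤ x0 then y r % 2 else
          if x0 + 1 < y r then 0 else 1 + y r % 2) + 0) % 2 = 0
        rw [if_neg (by omega), if_neg (by omega), if_pos (by omega)]
      · show ((if p ≤ n0 then 1 else if p ≤ x0 then y r % 2 else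
          if p < y r then 0 else 1 + y r % 2) + y r % 2) % 2 = 1
        rw [if_neg (by omega), if_neg (by omega), if_neg (by omega)]
        omega
      · show ((if y r ≤ n0 then 1 else if y r ≤ x0 then y r % 2 else
          if y r < y r then 0 else 1 + y r % 2) + 1 + y r) % 2 = 0
        rw [if_neg (by omega), if_neg (by omega), if_neg (lt_irrefl _)]
        omega
      · intro _
        show ((if y r - 1 ≤ n0 then 1 else if y r - 1 ≤ x0 then y r % 2 else
          if y r - 1 < y r then 0 else 1 + y r % 2) + y r + y r % 2) % 2 = 0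
        rw [if_neg (by omega), if_neg (by omega), if_pos (by omega)]
        omega
      · intro _
        show ((if n0 ≤ n0 then 1 else if n0 ≤ x0 then y r % 2 else
          if n0 < y r then 0 else 1 + y r % 2) + 0) % 2 = 1
        rw [if_pos le_rfl]
      · intro _
        show ((if n0 + 1 ≤ n0 then 1 else if n0 + 1 ≤ x0 then y r % 2 else
          if n0 + 1 < y r then 0 else 1 + y r % 2) + y r % 2) % 2 = 0
        rw [if_neg (by omega), if_pos (by omega)]
        omega
      · intro h; exact absurd trivial h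
    · -- the chain ends before `x0`
      have F : NF p sig x0 n0 r (r + 1) y False (false, y r - 1) (false, p) :=
        ⟨D, hx1, hxe, hsx, htp, hte, htl, hno, hn3, hnx, hsn, g1, g2, by rw [hy0]; exact hs1,
          Or.inl ⟨rfl, rfl, htop'⟩, Or.inr ⟨fun h => h, rfl⟩⟩
      refine nf_cert H F (fun a => if x0 < a then 0 else if y r % 2 = 0 then 1 else
        if a < y r then 0 else 1) 0 ((1 + y r) % 2) 1 ?_ ?_ ?_ ?_ ?_ ?_ ?_ ?_ ?_ ?_
      · intro a ha hap h3 h4 h5
        have h4' : a ≠ y r - 1 := fun h => h4 ⟨rfl, h⟩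
        show (if x0 < a then 0 else if y r % 2 = 0 then 1 else
          if a < y r then 0 else 1) = (if x0 < a + 1 then 0 else if y r % 2 = 0 then 1 else
            if a + 1 < y r then 0 else 1)
        split_ifs <;> omega
      · show ((if x0 < 1 then 0 else if y r % 2 = 0 then 1 else
          if 1 < y r then 0 else 1) + (1 + y r) % 2) % 2 = 0
        split_ifs <;> omega
      · show ((if x0 < x0 then 0 else if y r % 2 = 0 then 1 else
          if x0 < y r then 0 else 1) + 1) % 2 = 0
        split_ifs <;> omega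
      · show ((if x0 < x0 + 1 then 0 else if y r % 2 = 0 then 1 else
          if x0 + 1 < y r then 0 else 1) + 0) % 2 = 0
        split_ifs <;> omega
      · show ((if x0 < p then 0 else if y r % 2 = 0 then 1 else
          if p < y r then 0 else 1) + 1) % 2 = 1
        split_ifs <;> omega
      · show ((if x0 < y r then 0 else if y r % 2 = 0 then 1 else
          if y r < y r then 0 else 1) + (1 + y r) % 2 + y r) % 2 = 0
        split_ifs <;> omega
      · intro _
        show ((if x0 < y r - 1 then 0 else if y r % 2 = 0 then 1 else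
          if y r - 1 < y r then 0 else 1) + y r + 1) % 2 = 0
        split_ifs <;> omega
      · intro h; exact h.elim
      · intro h; exact h.elim
      · intro _; rfl

end Pool.Agent.Helper61.RigidL
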