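import Pool.Agent.Helper61.RigidL.CertW

/-!
The second chain and the frame of the certificate N (helper61).
-/

namespace Pool.Agent.Helper61.RigidL

open Pool.Agent.Helper61.Rigid

variable {p : ℕ} {sig tau : ℕ → ℕ}

/-- The data of the second chain. -/
structure ND (p : ℕ) (sig : ℕ → ℕ) (r : ℕ) (y : ℕ → ℕ) : Prop where
  y2 : ∀ q ≤ r, 2 ≤ y q
  yp : ∀ q ≤ r, y q < p
  so : ∀ q ≤ r, sig (y q) % 2 = 1
  sm : ∀ q ≤ r, sig (y q) < sig 1
  se : ∀ q ≤ r, sig (y q - 1) % 2 = 0
  lt : ∀ q ≤ r, sig (y q) < sig (y q - 1)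
  low : ∀ q < r, sig (y q - 1) < sig 1
  step : ∀ q < r, sig (y (q + 1)) = sig (y q - 1) + 1

/-- The second chain. -/
def yy (sig tau : ℕ → ℕ) (c : ℕ) : ℕ → ℕ
  | 0 => c
  | q + 1 => tau (sig (yy sig tau c q - 1) + 1)

theorem nd_point (H : HypL p sig tau) {v : ℕ} (h2 : 2 ≤ v) (hvp : v < p) (ho : sig v % 2 = 1)
    (hm : sig v < sig 1) : sig (v - 1) % 2 = 0 ∧ sig v < sig (v - 1) := by
  have hr : v - 1 + 1 = v := by omega
  have hne2 : sig (v - 1) ≠ sig v := by
    intro h
    have := H.sig_inj (by omega) (by omega) (by omega) hvp.le h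
    omega
  have hlt : sig v < sig (v - 1) := by
    rcases Nat.lt_or_gt_of_ne hne2 with h | h
    · have h4 := H.nm (v - 1) (by omega) (by omega)
      rw [hr] at h4
      have := h4 h
      omega
    · exact h
  have h5 := H.a_down (v - 1) (by omega) (by omega)
  rw [hr] at h5
  have h6 := h5 hlt hm
  exact ⟨by omega, hlt⟩

theorem exists_ND (H : HypL p sig tau) (c : ℕ) (h2 : 2 ≤ c) (hcp : c < p) (hso : sig c % 2 = 1)
    (hsm : sig c < sig 1) :
    ∃ r y, y 0 = c ∧ ND p sig r y ∧ sig 1 ≤ sig (y r - 1) := by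
  have hp := H.hp
  have ho := H.podd
  have hme := H.m_even
  obtain ⟨hm2, hmp⟩ := H.m_lt
  set y := yy sig tau c with hy
  have hy0 : y 0 = c := rfl
  have hys : ∀ q, y (q + 1) = tau (sig (y q - 1) + 1) := fun q => rfl
  have h0 : ND p sig 0 y := by
    have hz : ∀ q ≤ 0, q = 0 := fun q hq => by omega
    have hpt := nd_point H h2 hcp hso hsm
    refine ⟨?_, ?_, ?_, ?_, ?_, ?_, ?_, ?_⟩
    · intro q hq; rw [hz q hq]; exact h2
    · intro q hq; rw [hz q hq]; exact hcp
    · intro q hq; rw [hz q hq]; exact hso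
    · intro q hq; rw [hz q hq]; exact hsm
    · intro q hq; rw [hz q hq]; exact hpt.1
    · intro q hq; rw [hz q hq]; exact hpt.2
    · intro q hq; omega
    · intro q hq; omega
  have hstep : ∀ r, ND p sig r y → sig (y r - 1) < sig 1 → ND p sig (r + 1) y := by
    intro r D hlow
    have g1 := D.y2 r le_rfl
    have g2 := D.yp r le_rfl
    have g3 := D.se r le_rfl
    have g4 := D.lt r le_rfl
    have g5 := H.sig_mem (y r - 1) (by omega) (by omega)
    have hs := H.sig_tau (sig (y r - 1) + 1) (by omega) (by omega)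
    have hmem := H.tau_mem (sig (y r - 1) + 1) (by omega) (by omega)
    rw [← hys r] at hs hmem
    have hne1 : y (r + 1) ≠ 1 := by
      intro h; rw [h] at hs; omega
    have hnep : y (r + 1) ≠ p := by
      intro h; rw [h, H.sig_p] at hs; omega
    have hpt := nd_point H (v := y (r + 1)) (by omega) (by omega) (by omega) (by omega)
    have hle : ∀ q, q ≤ r + 1 → q ≤ r ∨ q = r + 1 := fun q hq => by omega
    have hlt : ∀ q, q < r + 1 → q < r ∨ q = r := fun q hq => by omega
    refine ⟨?_, ?_, ?_, ?_, ?_, ?_, ?_, ?_⟩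
    · intro q hq
      rcases hle q hq with h | h
      · exact D.y2 q h
      · rw [h]; omega
    · intro q hq
      rcases hle q hq with h | h
      · exact D.yp q h
      · rw [h]; omega
    · intro q hq
      rcases hle q hq with h | h
      · exact D.so q h
      · rw [h]; omega
    · intro q hq
      rcases hle q hq with h | h
      · exact D.sm q h
      · rw [h]; omega
    · intro q hq
      rcases hle q hq with h | h
      · exact D.se q h
      · rw [h]; exact hpt.1
    · intro q hq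
      rcases hle q hq with h | h
      · exact D.lt q h
      · rw [h]; exact hpt.2
    · intro q hq
      rcases hlt q hq with h | h
      · exact D.low q h
      · rw [h]; exact hlow
    · intro q hq
      rcases hlt q hq with h | h
      · exact D.step q h
      · rw [h]; exact hs
  by_contra hcon
  push Not at hcon
  have hall : ∀ r, ND p sig r y := by
    intro r
    induction r with
    | zero => exact h0
    | succ k ih => exact hstep k ih (hcon k y hy0 ih)
  have hgrow : ∀ r, r ≤ sig (y r) := by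
    intro r
    induction r with
    | zero => omega
    | succ k ih =>
      have h1 := (hall (k + 1)).step k (by omega)
      have h3 := (hall (k + 1)).lt k (by omega)
      omega
  have h1 := hgrow (sig 1)
  have h3 := (hall (sig 1)).sm (sig 1) le_rfl
  omega

theorem ND.s_lt {r : ℕ} {y : ℕ → ℕ} (D : ND p sig r y) :
    ∀ q q' : ℕ, q < q' → q' ≤ r → sig (y q - 1) < sig (y q') := by
  intro q q' h
  induction q' with
  | zero => omega
  | succ k ih =>
    intro hk
    have h1 := D.step k (by omega)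
    rcases Nat.lt_or_ge q k with h2 | h2
    · have h3 := ih h2 (by omega)
      have h4 := D.lt k (by omega)
      omega
    · have : q = k := by omega
      rw [this, h1]
      omega

theorem ND.y_lt {r : ℕ} {y : ℕ → ℕ} (D : ND p sig r y) {q q' : ℕ} (h : q < q') (h' : q' ≤ r) :
    sig (y q) < sig (y q') := by
  have h1 := D.s_lt q q' h h'
  have h2 := D.lt q (by omega)
  omega

theorem ND.y_le {r : ℕ} {y : ℕ → ℕ} (D : ND p sig r y) {q q' : ℕ} (h : q ≤ q') (h' : q' ≤ r) :
    sig (y q) ≤ sig (y q') := by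
  rcases Nat.lt_or_ge q q' with h1 | h1
  · exact (D.y_lt h1 h').le
  · have : q = q' := by omega
    rw [this]

/-- The rim edges of the first rim. -/
def nzA (p x0 n0 rr : ℕ) (y : ℕ → ℕ) (g : Prop) (a : ℕ) : Prop :=
  a = x0 ∨ (∃ q < rr, a = y q - 1) ∨ a = p ∨ (g ∧ a = n0)

/-- The rim edges of the second rim. -/
def nzB (p : ℕ) (sig : ℕ → ℕ) (x0 r : ℕ) (y : ℕ → ℕ) (g : Prop) (b : ℕ) : Prop :=
  b = sig 1 ∨ b = sig (x0 + 1) ∨ (∃ q < r, b = sig (y q - 1)) ∨ (g ∧ b = p)

/-- The kept spokes. -/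
def nX (p x0 n0 r rr : ℕ) (y : ℕ → ℕ) (g : Prop) (a : ℕ) : Prop :=
  a = p ∨ a = 1 ∨ a = x0 ∨ a = x0 + 1 ∨ (∃ q ≤ r, a = y q) ∨ (∃ q < rr, a = y q - 1) ∨
    (g ∧ (a = n0 ∨ a = n0 + 1))

/-- The frame of the certificate. -/
structure NF (p : ℕ) (sig : ℕ → ℕ) (x0 n0 r rr : ℕ) (y : ℕ → ℕ) (g : Prop) (s t : Bool × ℕ) :
    Prop where
  D : ND p sig r y
  x1 : 1 < x0
  xe : x0 % 2 = 0
  sx : sig x0 = sig 1 + 1
  tp : x0 + 1 < p
  te : sig (x0 + 1) % 2 = 0
  tl : sig (x0 + 1) < sig 1
  no : n0 % 2 = 1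
  n3 : 3 ≤ n0
  nx : n0 + 3 ≤ x0
  sn : sig n0 = 1
  sn1 : sig (n0 + 1) % 2 = 1
  sn2 : sig 1 < sig (n0 + 1)
  y0 : sig (y 0) = sig (x0 + 1) + 1
  ty : (rr = r + 1 ∧ s = (false, y r - 1) ∧ sig 1 < sig (y r - 1)) ∨
    (rr = r ∧ s = (true, y r) ∧ y r = 2)
  gt : (g ∧ t = (false, n0 + 1)) ∨ (¬ g ∧ t = (false, p))

variable {x0 n0 r rr : ℕ} {y : ℕ → ℕ} {g : Prop} {s t : Bool × ℕ}

theorem NF.hrr (F : NF p sig x0 n0 r rr y g s t) : r ≤ rr ∧ rr ≤ r + 1 := by
  rcases F.ty with ⟨h, _⟩ | ⟨h, _⟩ <;> omega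

theorem NF.hs (F : NF p sig x0 n0 r rr y g s t) : ∀ q ≤ r, sig (x0 + 1) < sig (y q) := by
  intro q hq
  have h1 := F.D.y_le (Nat.zero_le q) hq
  have h2 := F.y0
  omega

/-- The heights of the even points of the second chain. -/
theorem NF.hz (F : NF p sig x0 n0 r rr y g s t) {q : ℕ} (hq : q < rr) :
    q ≤ r ∧ 2 ≤ y q ∧ y q < p ∧ sig (y q - 1) % 2 = 0 ∧ sig (x0 + 1) < sig (y q - 1) ∧
      ((q < r ∧ sig (y q - 1) < sig 1) ∨ (q = r ∧ rr = r + 1 ∧ sig 1 < sig (y q - 1))) := by
  have h1 := F.hrr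
  have h2 : q ≤ r := by omega
  have h3 := F.hs q h2
  have h4 := F.D.lt q h2
  refine ⟨h2, F.D.y2 q h2, F.D.yp q h2, F.D.se q h2, by omega, ?_⟩
  rcases Nat.lt_or_ge q r with h5 | h5
  · exact Or.inl ⟨h5, F.D.low q h5⟩
  · have h6 : q = r := by omega
    right
    rcases F.ty with ⟨h7, _, h8⟩ | ⟨h7, _⟩
    · rw [h6]; exact ⟨rfl, h7, h8⟩
    · omega

theorem nf_oneA (H : HypL p sig tau) (F : NF p sig x0 n0 r rr y g s t) :
    ∀ a, 1 ≤ a → a ≤ p → ¬ (nzA p x0 n0 rr y g (pv p a) ∧ nzA p x0 n0 rr y g a) := by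
  rintro a ha hap ⟨h1, h2⟩
  have hp := H.hp
  have ho := H.podd
  have hme := H.m_even
  obtain ⟨hm2, hmp⟩ := H.m_lt
  have f1 := F.x1
  have f2 := F.xe
  have f3 := F.sx
  have f4 := F.tp
  have f5 := F.te
  have f6 := F.tl
  have f7 := F.no
  have f8 := F.n3
  have f9 := F.nx
  have f10 := F.sn
  have f11 := F.sn1
  have f12 := F.sn2
  have hs1 := H.sig_mem (x0 + 1) (by omega) (by omega)
  -- `a` is a right end
  have hR : (a = x0 + 1) ∨ (∃ q < rr, a = y q) ∨ a = 1 ∨ a = n0 + 1 := by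
    unfold pv at h1
    split_ifs at h1 with h3
    · exact Or.inr (Or.inr (Or.inl h3))
    · rcases h1 with h4 | ⟨q, hq, h4⟩ | h4 | ⟨_, h4⟩
      · left; omega
      · right; left
        have := F.hz hq
        exact ⟨q, hq, by omega⟩
      · omega
      · right; right; right; omega
  rcases hR with h3 | ⟨q, hq, h3⟩ | h3 | h3
  · rcases h2 with h4 | ⟨q', hq', h4⟩ | h4 | ⟨_, h4⟩
    · omega
    · have h5 := F.hz hq'
      rw [← h4, h3] at h5
      omega
    · omega
    · omega
  · have h6 := F.hz hq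
    have h7 := F.D.so q h6.1
    have h8 := F.D.sm q h6.1
    have h9 := F.hs q h6.1
    rw [← h3] at h7 h8 h9
    rcases h2 with h4 | ⟨q', hq', h4⟩ | h4 | ⟨_, h4⟩
    · rw [h4, f3] at h8; omega
    · have h5 := F.hz hq'
      rw [← h4] at h5
      omega
    · omega
    · rw [h4, f10] at h9; omega
  · rcases h2 with h4 | ⟨q', hq', h4⟩ | h4 | ⟨_, h4⟩
    · omega
    · have h5 := F.hz hq'
      rw [← h4, h3] at h5
      omega
    · omega
    · omega
  · rcases h2 with h4 | ⟨q', hq', h4⟩ | h4 | ⟨_, h4⟩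
    · omega
    · have h5 := F.hz hq'
      rw [← h4, h3] at h5
      omega
    · omega
    · omega

theorem nf_oneB (H : HypL p sig tau) (F : NF p sig x0 n0 r rr y g s t) :
    ∀ b, 1 ≤ b → b ≤ p → ¬ (nzB p sig x0 r y g (pv p b) ∧ nzB p sig x0 r y g b) := by
  rintro b hb hbp ⟨h1, h2⟩
  have hp := H.hp
  have ho := H.podd
  have hme := H.m_even
  obtain ⟨hm2, hmp⟩ := H.m_lt
  have f5 := F.te
  have f6 := F.tl
  have hev : b % 2 = 0 ∧ b ≤ sig 1 ∨ b = p := by
    rcases h2 with h4 | h4 | ⟨q, hq, h4⟩ | ⟨_, h4⟩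
    · omega
    · omega
    · have h5 := F.D.se q (by omega)
      have h6 := F.D.low q hq
      omega
    · exact Or.inr h4
  have hb2 : 2 ≤ b := by omega
  rw [pv_eq hb2] at h1
  rcases h1 with h4 | h4 | ⟨q, hq, h4⟩ | ⟨_, h4⟩
  · omega
  · omega
  · have h5 := F.D.se q (by omega)
    have h6 := F.D.low q hq
    omega
  · omega

theorem nf_notX (H : HypL p sig tau) (F : NF p sig x0 n0 r rr y g s t) :
    ∀ a, 1 ≤ a → a ≤ p → ¬ nX p x0 n0 r rr y g a →
      ¬ nzA p x0 n0 rr y g a ∧ ¬ nzA p x0 n0 rr y g (pv p a) ∧ ¬ nzB p sig x0 r y g (sig a) ∧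
        ¬ nzB p sig x0 r y g (pv p (sig a)) := by
  intro a ha hap hX
  have hp := H.hp
  have ho := H.podd
  have hme := H.m_even
  obtain ⟨hm2, hmp⟩ := H.m_lt
  have hsa := H.sig_mem a ha hap
  have hrr := F.hrr
  have f1 := F.x1
  have f3 := F.sx
  have f4 := F.tp
  have f5 := F.te
  have f6 := F.tl
  have f8 := F.n3
  have f9 := F.nx
  have hs1 := H.sig_mem (x0 + 1) (by omega) (by omega)
  have inj : ∀ c, 1 ≤ c → c ≤ p → sig a = sig c → a = c := fun c h1 h2 h3 =>
    H.sig_inj ha hap h1 h2 h3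
  refine ⟨?_, ?_, ?_, ?_⟩
  · rintro (h4 | ⟨q, hq, h4⟩ | h4 | ⟨hg, h4⟩)
    · exact hX (Or.inr (Or.inr (Or.inl h4)))
    · exact hX (Or.inr (Or.inr (Or.inr (Or.inr (Or.inr (Or.inl ⟨q, hq, h4⟩))))))
    · exact hX (Or.inl h4)
    · exact hX (Or.inr (Or.inr (Or.inr (Or.inr (Or.inr (Or.inr ⟨hg, Or.inl h4⟩))))))
  · intro h1
    rcases Nat.lt_or_ge a 2 with h2 | h2
    · exact hX (Or.inr (Or.inl (by omega)))
    · rw [pv_eq h2] at h1
      rcases h1 with h4 | ⟨q, hq, h4⟩ | h4 | ⟨hg, h4⟩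
      · exact hX (Or.inr (Or.inr (Or.inr (Or.inl (by omega)))))
      · have h5 := F.hz hq
        exact hX (Or.inr (Or.inr (Or.inr (Or.inr (Or.inl ⟨q, by omega, by omega⟩)))))
      · omega
      · exact hX (Or.inr (Or.inr (Or.inr (Or.inr (Or.inr (Or.inr ⟨hg, Or.inr (by omega)⟩))))))
  · rintro (h4 | h4 | ⟨q, hq, h4⟩ | ⟨hg, h4⟩)
    · exact hX (Or.inr (Or.inl (inj 1 le_rfl (by omega) h4)))
    · exact hX (Or.inr (Or.inr (Or.inr (Or.inl (inj _ (by omega) (by omega) h4)))))
    · have h5 := F.D.y2 q (by omega)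
      have h6 := F.D.yp q (by omega)
      exact hX (Or.inr (Or.inr (Or.inr (Or.inr (Or.inr (Or.inl
        ⟨q, by omega, inj _ (by omega) (by omega) h4⟩))))))
    · exact hX (Or.inl (inj p (by omega) le_rfl (h4.trans H.sig_p.symm)))
  · intro h1
    unfold pv at h1
    split_ifs at h1 with h2
    · rcases h1 with h4 | h4 | ⟨q, hq, h4⟩ | ⟨hg, h4⟩
      · omega
      · omega
      · have h6 := F.D.low q hq
        omega
      · exact hX (Or.inr (Or.inr (Or.inr (Or.inr (Or.inr (Or.inr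
          ⟨hg, Or.inl (inj n0 (by omega) (by omega) (h2.trans F.sn.symm))⟩))))))
    · rcases h1 with h4 | h4 | ⟨q, hq, h4⟩ | ⟨hg, h4⟩
      · exact hX (Or.inr (Or.inr (Or.inl (inj x0 (by omega) (by omega) (by omega)))))
      · have h7 := F.D.y2 0 (by omega)
        have h8 := F.D.yp 0 (by omega)
        have h9 := F.y0
        exact hX (Or.inr (Or.inr (Or.inr (Or.inr (Or.inl
          ⟨0, by omega, inj _ (by omega) (by omega) (by omega)⟩)))))
      · have h7 := F.D.y2 (q + 1) (by omega)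
        have h8 := F.D.yp (q + 1) (by omega)
        have h9 := F.D.step q hq
        exact hX (Or.inr (Or.inr (Or.inr (Or.inr (Or.inl
          ⟨q + 1, by omega, inj _ (by omega) (by omega) (by omega)⟩)))))
      · omega

theorem nf_covA (H : HypL p sig tau) (F : NF p sig x0 n0 r rr y g s t) :
    ∀ a, 1 ≤ a → a ≤ p → nX p x0 n0 r rr y g a →
      ((nzA p x0 n0 rr y g (pv p a) ∨ nzA p x0 n0 rr y g a) ↔
        ((true, a) ≠ s ∧ (true, a) ≠ t)) := by
  intro a ha hap hX
  have hp := H.hp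
  have ho := H.podd
  have hme := H.m_even
  obtain ⟨hm2, hmp⟩ := H.m_lt
  have hrr := F.hrr
  have f1 := F.x1
  have f3 := F.sx
  have f4 := F.tp
  have f5 := F.te
  have f6 := F.tl
  have f8 := F.n3
  have f9 := F.nx
  have f10 := F.sn
  have hs1 := H.sig_mem (x0 + 1) (by omega) (by omega)
  have ht : (true, a) ≠ t := by
    rcases F.gt with ⟨_, h⟩ | ⟨_, h⟩ <;> rw [h] <;> simp
  constructor
  · intro h1
    refine ⟨?_, ht⟩
    intro h2
    rcases F.ty with ⟨_, h3, _⟩ | ⟨h3, h4, h5⟩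
    · rw [h3] at h2
      exact absurd (congrArg Prod.fst h2) (by simp)
    · rw [h4] at h2
      have h6 : a = y r := congrArg Prod.snd h2
      have h7 := F.D.so r le_rfl
      have h8 := F.D.sm r le_rfl
      have h9 := F.hs r le_rfl
      rw [← h6] at h7 h8 h9
      have h10 : a = 2 := by omega
      have hpv : pv p a = 1 := by
        rw [h10, pv_eq (by omega)]
      rw [hpv] at h1
      rcases h1 with (h4 | ⟨q, hq, h4⟩ | h4 | ⟨_, h4⟩) | (h4 | ⟨q, hq, h4⟩ | h4 | ⟨_, h4⟩)
      · omega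
      · have h11 := F.hz hq
        rw [← h4] at h11
        omega
      · omega
      · omega
      · rw [h4, f3] at h8; omega
      · have h11 := F.hz hq
        rw [← h4] at h11
        omega
      · omega
      · omega
  · rintro ⟨h1, _⟩
    rcases hX with h3 | h3 | h3 | h3 | ⟨q, hq, h3⟩ | ⟨q, hq, h3⟩ | ⟨hg, h3 | h3⟩
    · right; right; right; left; exact h3
    · left; right; right; left
      rw [h3, pv_one]
    · right; left; exact h3
    · left; left
      rw [h3, pv_eq (by omega)]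
      omega
    · left; right; left
      have h7 := F.D.y2 q hq
      refine ⟨q, ?_, ?_⟩
      · by_contra h4
        have h5 : q = r := by omega
        rcases F.ty with ⟨h6, _⟩ | ⟨_, h6, _⟩
        · omega
        · apply h1
          rw [h6, h3, h5]
      · rw [h3, pv_eq (by omega)]
    · right; right; left
      exact ⟨q, hq, h3⟩
    · right; right; right; right
      exact ⟨hg, h3⟩
    · left; right; right; right
      refine ⟨hg, ?_⟩
      rw [h3, pv_eq (by omega)]
      omega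

theorem nf_covB (H : HypL p sig tau) (F : NF p sig x0 n0 r rr y g s t) :
    ∀ a, 1 ≤ a → a ≤ p → nX p x0 n0 r rr y g a →
      ((nzB p sig x0 r y g (pv p (sig a)) ∨ nzB p sig x0 r y g (sig a)) ↔
        ((false, a) ≠ s ∧ (false, a) ≠ t)) := by
  intro a ha hap hX
  have hp := H.hp
  have ho := H.podd
  have hme := H.m_even
  obtain ⟨hm2, hmp⟩ := H.m_lt
  have hrr := F.hrr
  have hsp := H.sig_p
  have hsa := H.sig_mem a ha hap
  have f1 := F.x1
  have f3 := F.sx
  have f4 := F.tp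
  have f5 := F.te
  have f6 := F.tl
  have f8 := F.n3
  have f9 := F.nx
  have f10 := F.sn
  have f11 := F.sn1
  have f12 := F.sn2
  have hs1 := H.sig_mem (x0 + 1) (by omega) (by omega)
  constructor
  · intro h1
    constructor
    · intro h2
      rcases F.ty with ⟨_, h3, h4⟩ | ⟨_, h3, _⟩
      swap
      · rw [h3] at h2
        exact absurd (congrArg Prod.fst h2) (by simp)
      · rw [h3] at h2
        have h5 : a = y r - 1 := congrArg Prod.snd h2
        have h6 := F.D.se r le_rfl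
        rw [← h5] at h4 h6
        rw [pv_eq (by omega)] at h1
        rcases h1 with (h7 | h7 | ⟨q, hq, h7⟩ | ⟨_, h7⟩) | (h7 | h7 | ⟨q, hq, h7⟩ | ⟨_, h7⟩)
        · omega
        · omega
        · have h8 := F.D.low q hq
          have h9 := F.D.se q (by omega)
          omega
        · omega
        · omega
        · omega
        · have h8 := F.D.low q hq
          omega
        · omega
    · intro h2
      rcases F.gt with ⟨hg, h3⟩ | ⟨hg, h3⟩
      · rw [h3] at h2
        have h5 : a = n0 + 1 := congrArg Prod.snd h2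
        rw [← h5] at f11 f12
        rw [pv_eq (by omega)] at h1
        rcases h1 with (h7 | h7 | ⟨q, hq, h7⟩ | ⟨_, h7⟩) | (h7 | h7 | ⟨q, hq, h7⟩ | ⟨_, h7⟩)
        · have h8 : sig a = sig x0 := by omega
          have h9 := H.sig_inj ha hap (by omega) (by omega) h8
          omega
        · omega
        · have h8 := F.D.low q hq
          omega
        · omega
        · omega
        · omega
        · have h8 := F.D.low q hq
          omega
        · have h8 : sig a = sig p := by omega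
          have h9 := H.sig_inj ha hap (by omega) le_rfl h8
          omega
      · rw [h3] at h2
        have h5 : a = p := congrArg Prod.snd h2
        rw [h5, hsp, pv_eq (by omega)] at h1
        rcases h1 with (h7 | h7 | ⟨q, hq, h7⟩ | ⟨hg', _⟩) | (h7 | h7 | ⟨q, hq, h7⟩ | ⟨hg', _⟩)
        · omega
        · omega
        · have h8 := F.D.low q hq
          omega
        · exact hg hg'
        · omega
        · omega
        · have h8 := F.D.low q hq
          omega
        · exact hg hg'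
  · rintro ⟨h1, h2⟩
    rcases hX with h3 | h3 | h3 | h3 | ⟨q, hq, h3⟩ | ⟨q, hq, h3⟩ | ⟨hg, h3 | h3⟩
    · right; right; right; right
      rcases F.gt with ⟨hg, _⟩ | ⟨_, h4⟩
      · exact ⟨hg, by rw [h3, hsp]⟩
      · exact absurd (by rw [h3, h4]) h2
    · right; left
      rw [h3]
    · left; left
      rw [h3, f3, pv_eq (by omega)]
      omega
    · right; right; left
      rw [h3]
    · left
      rcases Nat.eq_zero_or_pos q with h4 | h4
      · right; left
        rw [h3, h4, F.y0, pv_eq (by omega)]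
        omega
      · right; right; left
        obtain ⟨k, rfl⟩ : ∃ k, q = k + 1 := ⟨q - 1, by omega⟩
        have h5 := F.D.step k (by omega)
        have h6 := F.D.lt k (by omega)
        refine ⟨k, by omega, ?_⟩
        rw [h3, h5, pv_eq (by omega)]
        omega
    · rcases (F.hz hq).2.2.2.2.2 with ⟨h4, _⟩ | ⟨h4, h5, _⟩
      · right; right; right; left
        exact ⟨q, h4, by rw [h3]⟩
      · rcases F.ty with ⟨_, h6, _⟩ | ⟨h6, _⟩
        · exact absurd (by rw [h3, h4, h6]) h1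
        · omega
    · left; right; right; right
      refine ⟨hg, ?_⟩
      rw [h3, f10, pv_one]
    · rcases F.gt with ⟨_, h4⟩ | ⟨hg', _⟩
      · exact absurd (by rw [h3, h4]) h2
      · exact absurd hg hg'

theorem nf_st (H : HypL p sig tau) (F : NF p sig x0 n0 r rr y g s t) :
    s ≠ t ∧ (1 ≤ s.2 ∧ s.2 ≤ p ∧ nX p x0 n0 r rr y g s.2) ∧
      (1 ≤ t.2 ∧ t.2 ≤ p ∧ nX p x0 n0 r rr y g t.2) := by
  have hp := H.hp
  have ho := H.podd
  have f4 := F.tp
  have f8 := F.n3
  have f9 := F.nx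
  have f11 := F.sn1
  have h7 := F.D.y2 r le_rfl
  have h8 := F.D.yp r le_rfl
  have h9 := F.D.se r le_rfl
  refine ⟨?_, ?_, ?_⟩
  · intro h
    rcases F.ty with ⟨_, h3, h4⟩ | ⟨_, h3, h4⟩ <;> rcases F.gt with ⟨_, h5⟩ | ⟨_, h5⟩ <;>
      rw [h3, h5] at h
    · have h6 : y r - 1 = n0 + 1 := congrArg Prod.snd h
      rw [h6] at h9
      omega
    · have h6 : y r - 1 = p := congrArg Prod.snd h
      omega
    · exact absurd (congrArg Prod.fst h) (by simp)
    · exact absurd (congrArg Prod.fst h) (by simp)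
  · rcases F.ty with ⟨h2, h3, h4⟩ | ⟨_, h3, h4⟩
    · rw [h3]
      refine ⟨by show 1 ≤ y r - 1; omega, by show y r - 1 ≤ p; omega, ?_⟩
      exact Or.inr (Or.inr (Or.inr (Or.inr (Or.inr (Or.inl ⟨r, by omega, rfl⟩)))))
    · rw [h3]
      refine ⟨by show 1 ≤ y r; omega, by show y r ≤ p; omega, ?_⟩
      exact Or.inr (Or.inr (Or.inr (Or.inr (Or.inl ⟨r, le_rfl, rfl⟩))))
  · rcases F.gt with ⟨hg, h5⟩ | ⟨_, h5⟩
    · rw [h5]
      refine ⟨by show 1 ≤ n0 + 1; omega, by show n0 + 1 ≤ p; omega, ?_⟩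
      exact Or.inr (Or.inr (Or.inr (Or.inr (Or.inr (Or.inr ⟨hg, Or.inr rfl⟩)))))
    · rw [h5]
      exact ⟨by show 1 ≤ p; omega, le_rfl, Or.inl rfl⟩

end Pool.Agent.Helper61.RigidL
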